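import Pool.Agent.MP_4cbd16_al.RC.Spec

/-! Asymptotics of the product of factorials. -/

namespace Pool.Agent.MP_4cbd16_al.RC

open Filter

namespace A

/-- `f n` is eventually at least `(n!)^(r - η)`, for every positive `η`. -/
def P (f : ℕ → ℕ) (r : ℝ) : Prop :=
  ∀ η : ℝ, 0 < η → ∀ᶠ n : ℕ in atTop, (n.factorial : ℝ) ^ (r - η) ≤ (f n : ℝ)

theorem one_le_fact (n : ℕ) : (1 : ℝ) ≤ n.factorial := by
  exact_mod_cast Nat.succ_le_of_lt n.factorial_pos

theorem P_one : P (fun _ => 1) 0 := fun η hη => Eventually.of_forall fun n => by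
  simpa using Real.rpow_le_one_of_one_le_of_nonpos (one_le_fact n) (by linarith : -η ≤ 0)

theorem P.mul {f g : ℕ → ℕ} {r s : ℝ} (hf : P f r) (hg : P g s) :
    P (fun n => f n * g n) (r + s) := fun η hη => by
  filter_upwards [hf (η / 2) (by linarith), hg (η / 2) (by linarith)] with n h1 h2
  have h0 : (0 : ℝ) < n.factorial := lt_of_lt_of_le one_pos (one_le_fact n)
  rw [show r + s - η = (r - η / 2) + (s - η / 2) by ring, Real.rpow_add h0, Nat.cast_mul]
  exact mul_le_mul h1 h2 (Real.rpow_nonneg h0.le _) (Nat.cast_nonneg _)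

theorem P_prod {ι : Type} (s : Finset ι) (f : ι → ℕ → ℕ) (r : ι → ℝ)
    (h : ∀ i ∈ s, P (f i) (r i)) : P (fun n => ∏ i ∈ s, f i n) (∑ i ∈ s, r i) := by
  classical
  induction s using Finset.induction_on with
  | empty => simpa using P_one
  | insert a s ha ih =>
    simp only [Finset.prod_insert ha, Finset.sum_insert ha]
    exact (h a (Finset.mem_insert_self _ _)).mul (ih fun i hi => h i (Finset.mem_insert_of_mem hi))

theorem log_fact_lower (m : ℕ) : (m : ℝ) * Real.log m - m ≤ Real.log m.factorial := by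
  rcases Nat.eq_zero_or_pos m with rfl | hm
  · simp
  have h0 : (0 : ℝ) < m.factorial := lt_of_lt_of_le one_pos (one_le_fact m)
  have hm' : (0 : ℝ) < m := by exact_mod_cast hm
  have h1 := Real.pow_div_factorial_le_exp (m : ℝ) hm'.le m
  have h2 := Real.log_le_log (by positivity) h1
  rw [Real.log_exp, Real.log_div (by positivity) h0.ne', Real.log_pow] at h2
  linarith

theorem log_fact_upper (n : ℕ) : Real.log n.factorial ≤ (n : ℝ) * Real.log n := by
  have h0 : (0 : ℝ) < n.factorial := lt_of_lt_of_le one_pos (one_le_fact n)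
  have h1 : (n.factorial : ℝ) ≤ (n : ℝ) ^ n := by exact_mod_cast Nat.factorial_le_pow n
  have h2 := Real.log_le_log h0 h1
  rwa [Real.log_pow] at h2

theorem key (q a n : ℕ) (hq : 1 ≤ q) (hn : 2 * (a + q) ≤ n) :
    Real.log n.factorial ≤ q * Real.log ((n - a) / q).factorial +
      n * (Real.log (2 * q) + 1 + (a + q)) := by
  set m := (n - a) / q with hm
  have h1 : q * m ≤ n := (Nat.mul_div_le _ _).trans (Nat.sub_le _ _)
  have h2 : n ≤ q * m + (a + q) := by
    have := Nat.lt_mul_div_succ (n - a) (show 0 < q by omega)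
    rw [← hm, Nat.mul_add, Nat.mul_one] at this
    omega
  have h3 : n ≤ 2 * q * m := by rw [Nat.mul_assoc]; omega
  have hn0 : 0 < n := by omega
  have hm0 : 0 < m := Nat.pos_of_ne_zero fun h => by rw [h] at h3; omega
  have hq' : (1 : ℝ) ≤ q := by exact_mod_cast hq
  have hn' : (1 : ℝ) ≤ n := by exact_mod_cast hn0
  have hm' : (0 : ℝ) < m := by exact_mod_cast hm0
  have g1 : (q : ℝ) * m ≤ n := by exact_mod_cast h1
  have g2 : (n : ℝ) ≤ q * m + (a + q) := by exact_mod_cast h2
  have g3 : (n : ℝ) ≤ 2 * q * m := by exact_mod_cast h3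
  have l1 : Real.log n ≤ Real.log (2 * q) + Real.log m := by
    rw [← Real.log_mul (by positivity) hm'.ne']
    exact Real.log_le_log (by linarith) g3
  have l2 : Real.log n ≤ n := (Real.log_le_sub_one_of_pos (by linarith)).trans (by linarith)
  have l3 : 0 ≤ Real.log n := Real.log_nonneg hn'
  have l4 : 0 ≤ Real.log (2 * q) := Real.log_nonneg (by linarith)
  have l5 := log_fact_lower m
  have l6 := log_fact_upper n
  have e1 : (n : ℝ) * Real.log n ≤ (q * m + (a + q)) * Real.log n :=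
    mul_le_mul_of_nonneg_right g2 l3
  have e2 : (q : ℝ) * m * Real.log n ≤ q * m * (Real.log (2 * q) + Real.log m) :=
    mul_le_mul_of_nonneg_left l1 (by positivity)
  have e3 : ((a : ℝ) + q) * Real.log n ≤ (a + q) * n :=
    mul_le_mul_of_nonneg_left l2 (by positivity)
  have e4 : (q : ℝ) * m * Real.log (2 * q) ≤ n * Real.log (2 * q) :=
    mul_le_mul_of_nonneg_right g1 l4
  have e5 : (q : ℝ) * (m * Real.log m - m) ≤ q * Real.log m.factorial :=
    mul_le_mul_of_nonneg_left l5 (by positivity)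
  nlinarith

theorem P_base (q a : ℕ) (hq : 1 ≤ q) : P (fun n => ((n - a) / q).factorial) (1 / q) := by
  intro η hη
  have hq' : (0 : ℝ) < q := by exact_mod_cast hq
  have ht : Tendsto (fun n : ℕ => Real.log n) atTop atTop :=
    Real.tendsto_log_atTop.comp tendsto_natCast_atTop_atTop
  set C : ℝ := Real.log (2 * q) + 1 + (a + q) with hC
  filter_upwards [eventually_ge_atTop (2 * (a + q)),
    ht.eventually_ge_atTop (C / (q * η) + 1)] with n h1 h2
  have h0 : (0 : ℝ) < n.factorial := lt_of_lt_of_le one_pos (one_le_fact n)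
  have h0' : (0 : ℝ) < ((n - a) / q).factorial := lt_of_lt_of_le one_pos (one_le_fact _)
  have k1 := key q a n hq h1
  have k2 := log_fact_lower n
  have k3 : C ≤ q * η * (Real.log n - 1) := by
    have : C / (q * η) ≤ Real.log n - 1 := by linarith
    rwa [div_le_iff₀' (by positivity)] at this
  have k4 : (n : ℝ) * C ≤ n * (q * η * (Real.log n - 1)) :=
    mul_le_mul_of_nonneg_left k3 (Nat.cast_nonneg _)
  have k5 : (q : ℝ) * η * (n * Real.log n - n) ≤ q * η * Real.log n.factorial :=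
    mul_le_mul_of_nonneg_left k2 (by positivity)
  rw [← Real.log_le_log_iff (Real.rpow_pos_of_pos h0 _) h0', Real.log_rpow h0]
  have k6 : (q : ℝ) * ((1 / q - η) * Real.log n.factorial) ≤
      q * Real.log ((n - a) / q).factorial := by
    have : (q : ℝ) * ((1 / q - η) * Real.log n.factorial) =
        Real.log n.factorial - q * η * Real.log n.factorial := by field_simp
    rw [this, ← hC] at *
    nlinarith
  exact le_of_mul_le_mul_left k6 hq'

theorem sum_one (c : ℕ) :
    ∑ j ∈ Finset.range c, (1 / ((2 ^ (j + 1) : ℕ) : ℝ)) = 1 - (1 / 2 : ℝ) ^ c := by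
  induction c with
  | zero => simp
  | succ c ih =>
    rw [Finset.sum_range_succ, ih]
    push_cast
    rw [one_div_pow, one_div_pow]
    field_simp
    ring

theorem sum_two (c : ℕ) :
    ∑ j ∈ Finset.range c, (1 / ((2 ^ (j + 2) : ℕ) : ℝ)) = 1 / 2 - (1 / 2 : ℝ) ^ (c + 1) := by
  induction c with
  | zero => simp
  | succ c ih =>
    rw [Finset.sum_range_succ, ih]
    push_cast
    rw [one_div_pow, one_div_pow]
    field_simp
    ring

theorem P_full (c : ℕ) : P (fun n => ∏ j ∈ Finset.range c, (n / 2 ^ (j + 1)).factorial)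
    (1 - (1 / 2 : ℝ) ^ c) := by
  rw [← sum_one]
  exact P_prod _ (fun j n => (n / 2 ^ (j + 1)).factorial) _ fun j _ =>
    P_base (2 ^ (j + 1)) 0 Nat.one_le_two_pow

theorem P_half {c : ℕ} (hc : 0 < c) :
    P (fun n => ∏ j ∈ Finset.range (c - 1), ((n - 2) / 2 ^ (j + 2)).factorial)
      (1 / 2 - (1 / 2 : ℝ) ^ c) := by
  obtain ⟨c, rfl⟩ := Nat.exists_eq_add_of_le' hc
  rw [Nat.add_sub_cancel, ← sum_two]
  exact P_prod _ (fun j n => ((n - 2) / 2 ^ (j + 2)).factorial) _ fun j _ =>
    P_base (2 ^ (j + 2)) 2 Nat.one_le_two_pow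

end A

open A in
theorem row_A : S_A := by
  intro B _ 𝒞 C₁ h₁ C₂ h₂ hne n₁ n₂ ε hε
  have h := ((P_half n₁.card_pos).mul (P_half n₂.card_pos)).mul
    (P_prod ((𝒞.erase C₁).erase C₂)
      (fun C n => ∏ j ∈ Finset.range C.card, (n / 2 ^ (j + 1)).factorial) _
      fun C _ => P_full C.card) ε hε
  have hw : wtC 𝒞 - 1 = 1 / 2 - (1 / 2 : ℝ) ^ C₁.card + (1 / 2 - (1 / 2 : ℝ) ^ C₂.card) +
      ∑ C ∈ (𝒞.erase C₁).erase C₂, (1 - (1 / 2 : ℝ) ^ C.card) := by
    rw [wtC, ← Finset.add_sum_erase _ _ h₁,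
      ← Finset.add_sum_erase _ _ (Finset.mem_erase.2 ⟨hne.symm, h₂⟩)]
    ring
  rw [hw]
  exact h

end Pool.Agent.MP_4cbd16_al.RC
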