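import Pool.Agent.MP_4cbd16_al.RC.Path

/-! Cancelling pairs and separation. -/

namespace Pool.Agent.MP_4cbd16_al.RC

open Classical

variable {B X : Type}

/-- every short closed path has a cancelling pair -/
def CP (adj : B → B → Prop) (s : B → X → X) (l : ℕ) : Prop :=
  ∀ (x : X) (w : List B), w ≠ [] → w.length ≤ l → LF s x w → ev s x w = x →
    ∃ a i p b, w = a ++ i :: (p ++ i :: b) ∧ ∀ j ∈ p, adj i j

lemma CP.sub {adj : B → B → Prop} {t s : B → X → X} {l : ℕ} (h : CP adj s l) (hts : Sub t s) :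
    CP adj t l := by
  intro x w h1 h2 h3 h4
  exact h x w h1 h2 (hts.path h3).1 (by rw [(hts.path h3).2, h4])

lemma ev_mem_iff {s : B → X → X} {N : Set X} {J : B → Prop}
    (hN : ∀ j, J j → ∀ y, s j y ∈ N ↔ y ∈ N) {p : List B} (hp : ∀ j ∈ p, J j) (y : X) :
    ev s y p ∈ N ↔ y ∈ N := by
  induction p generalizing y with
  | nil => simp
  | cons j p ih =>
    rw [ev_cons, ih (fun k hk => hp k (by simp [hk])), hN j (hp j (by simp))]

lemma cnt_comm {adj : B → B → Prop} (hsy : ∀ i j, adj i j → adj j i) {s : B → X → X}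
    (hs : Act adj s) {i : B} {N : Set X}
    (hN : ∀ j, (j = i ∨ adj i j) → ∀ y, s j y ∈ N ↔ y ∈ N) {v : B} {p : List B}
    (hp : ∀ j ∈ p, adj v j) (y : X) : cnt s i N (s v y) p = cnt s i N y p := by
  induction p generalizing y with
  | nil => simp
  | cons j p ih =>
    have hj := hp j (by simp)
    rw [cnt_cons, cnt_cons, ← hs.comm v j hj, ih (fun k hk => hp k (by simp [hk]))]
    congr 1
    by_cases hji : j = i
    · subst hji
      simp only [true_and, hN v (Or.inr (hsy _ _ hj)) y]
    · simp [hji]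

/-- (c2): no short closed path crosses a piece exactly once -/
lemma CP.cnt_ne_one {adj : B → B → Prop} (hsy : ∀ i j, adj i j → adj j i) {s : B → X → X}
    (hs : Act adj s) {l : ℕ} (h : CP adj s l) {i : B} {N : Set X}
    (hN : ∀ j, (j = i ∨ adj i j) → ∀ y, s j y ∈ N ↔ y ∈ N) :
    ∀ (n : ℕ) (x : X) (w : List B), w.length = n → w.length ≤ l → LF s x w → ev s x w = x →
      cnt s i N x w ≠ 1 := by
  intro n
  induction n using Nat.strong_induction_on with
  | _ n ih =>
    intro x w hn hl hw he
    by_cases hw0 : w = []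
    · subst hw0; simp
    obtain ⟨a, v, p, b, rfl, hp⟩ := h x w hw0 hl hw he
    set y := ev s x a with hy
    have e1 := comm_path hs hp y
    have e2 := comm_path hs hp (s v y)
    rw [hs.inv] at e2
    rw [LF_append, LF_cons, LF_append, LF_cons, ← hy, e1.1, hs.inv] at hw
    rw [ev_append, ev_cons, ev_append, ev_cons, ← hy, e1.1, hs.inv] at he
    have hlen : (a ++ (p ++ b)).length < n := by
      rw [← hn]; simp only [List.length_append, List.length_cons]; omega
    have hl' : (a ++ (p ++ b)).length ≤ l := by omega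
    have := ih _ hlen x (a ++ (p ++ b)) rfl hl'
      (by rw [LF_append, LF_append, ← hy]; exact ⟨hw.1, e2.2 hw.2.2.1, hw.2.2.2.2⟩)
      (by rw [ev_append, ev_append, ← hy]; exact he)
    rw [cnt_append, cnt_append, ← hy] at this
    rw [cnt_append, cnt_cons, cnt_append, cnt_cons, ← hy, e1.1, hs.inv, cnt_comm hsy hs hN hp]
    by_cases hv : v = i
    · subst hv
      have : s v (ev s y p) ∈ N ↔ y ∈ N := by
        rw [hN v (Or.inl rfl), ev_mem_iff hN (fun j hj => Or.inr (hp j hj))]
      simp only [true_and, this]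
      split_ifs <;> omega
    · simp only [hv, false_and, if_false]
      omega

/-- separation in a small orbit -/
lemma CP.sep [Fintype X] {adj : B → B → Prop} (hsy : ∀ i j, adj i j → adj j i) {s : B → X → X}
    (hs : Act adj s) {r : ℕ} (h : CP adj s (2 * r)) {v : B} {a : X} (ha : s v a ≠ a)
    (hr : (Finset.univ.filter fun z => Reach s (fun _ => True) a z).card < r) :
    ¬ Reach (del s v (Pc adj s v a)) (fun _ => True) (s v a) a := by
  intro hR
  obtain ⟨w, _, h2, h3, h4⟩ := hR.short
  have hsub : (Finset.univ.filter fun z =>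
      Reach (del s v (Pc adj s v a)) (fun _ => True) (s v a) z) ⊆
      (Finset.univ.filter fun z => Reach s (fun _ => True) a z) := by
    intro z hz
    simp only [Finset.mem_filter, Finset.mem_univ, true_and] at hz ⊢
    exact ((Reach.refl s _ a).step (i := v) trivial).trans
      (hz.sub (del_sub _ _ _) fun _ _ => trivial)
  have := Finset.card_le_card hsub
  have hp := (del_sub s v _).path h2
  refine h.cnt_ne_one hsy hs (i := v) (N := Pc adj s v a) (fun j hj y => Pc_step hs a hj y)
    _ a (v :: w) rfl (by simp only [List.length_cons]; omega) ⟨ha, hp.1⟩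
    (by rw [ev_cons, hp.2, h3]) ?_
  rw [cnt_cons, cnt_of_del h2, if_pos ⟨rfl, Pc_self _ _ _ _⟩]

/-- no piece can be bypassed by a path of length at most `l` -/
def NoB (adj : B → B → Prop) (s : B → X → X) (l : ℕ) : Prop :=
  ∀ v x, s v x ≠ x → ∀ w : List B, w.length ≤ l → LF (del s v (Pc adj s v x)) x w →
    ev (del s v (Pc adj s v x)) x w ≠ s v x

lemma NoB.once {adj : B → B → Prop} {s : B → X → X} (hs : Act adj s) {l : ℕ} (h : NoB adj s l)
    {x : X} {a b : List B} {i : B} (hl : (a ++ i :: b).length ≤ l) (hw : LF s x (a ++ i :: b))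
    (he : ev s x (a ++ i :: b) = x) :
    cnt s i (Pc adj s i (ev s x a)) x a ≠ 0 ∨
      cnt s i (Pc adj s i (ev s x a)) (s i (ev s x a)) b ≠ 0 := by
  by_contra hc
  push Not at hc
  set y := ev s x a with hy
  rw [LF_append, LF_cons, ← hy] at hw
  rw [ev_append, ev_cons, ← hy] at he
  have hP : Pc adj s i (s i y) = Pc adj s i y :=
    Pc_eq hs ((Pc_step hs y (Or.inl rfl) y).2 (Pc_self _ _ _ _))
  have hm : s i (s i y) ≠ s i y := by rw [hs.inv]; exact fun e => hw.2.1 e.symm
  have hlf : LF s (s i y) (b ++ a) := by rw [LF_append, he]; exact ⟨hw.2.2, hw.1⟩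
  have hcn : cnt s i (Pc adj s i y) (s i y) (b ++ a) = 0 := by rw [cnt_append, he, hc.1, hc.2]
  have hd := del_path hlf hcn
  refine h i (s i y) hm (b ++ a) ?_ (by rw [hP]; exact hd.1) ?_
  · simp only [List.length_append, List.length_cons] at hl ⊢; omega
  · rw [hP, hd.2, ev_append, he, hs.inv]

/-- (c1) -/
lemma NoB.cp [Fintype X] {adj : B → B → Prop} (hir : ∀ i, ¬ adj i i) {s : B → X → X}
    (hs : Act adj s) {r : ℕ} (h : NoB adj s (3 * r))
    (hsm : ∀ v x, s v x ≠ x → (Finset.univ.filter fun z => Reach s (adj v) x z).card < r) :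
    CP adj s (2 * r) := by
  intro x w hw0 hl hw he
  have hex : ∃ n, ∃ a i p b, w = a ++ i :: (p ++ i :: b) ∧ p.length = n ∧
      ev s (s i (ev s x a)) p ∈ Pc adj s i (ev s x a) := by
    obtain ⟨i, b, rfl⟩ := List.exists_cons_of_ne_nil hw0
    rcases h.once hs (x := x) (a := []) (b := b) (i := i) (by simp at hl ⊢; omega) hw he with
      h1 | h1
    · simp at h1
    · obtain ⟨p, b', rfl, hp⟩ := cnt_ne_zero h1
      exact ⟨_, [], i, p, b', rfl, rfl, hp⟩
  obtain ⟨a, i, p, b, hwe, hpl, hz⟩ := Nat.find_spec hex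
  have hmin : ∀ a' i' p' b', w = a' ++ i' :: (p' ++ i' :: b') →
      ev s (s i' (ev s x a')) p' ∈ Pc adj s i' (ev s x a') → p.length ≤ p'.length := by
    intro a' i' p' b' e1 e2
    rw [hpl]
    exact Nat.find_min' hex ⟨a', i', p', b', e1, rfl, e2⟩
  refine ⟨a, i, p, b, hwe, ?_⟩
  set y := ev s x a with hy
  have hw' := hw
  rw [hwe, LF_append, LF_cons, LF_append, ← hy] at hw'
  obtain ⟨_, hyi, hlp, hrest⟩ := hw'
  have hplen : p.length + 2 ≤ 2 * r := by
    rw [hwe] at hl; simp only [List.length_append, List.length_cons] at hl; omega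
  have hP : Pc adj s i (s i y) = Pc adj s i y :=
    Pc_eq hs ((Pc_step hs y (Or.inl rfl) y).2 (Pc_self _ _ _ _))
  have hm : s i (s i y) ≠ s i y := by rw [hs.inv]; exact fun e => hyi e.symm
  have hc0 : cnt s i (Pc adj s i y) (s i y) p = 0 := by
    by_contra hc
    obtain ⟨p1, p2, rfl, h1⟩ := cnt_ne_zero hc
    have := hmin a i p1 (p2 ++ i :: b) (by rw [hwe]; simp) h1
    simp only [List.length_append, List.length_cons] at this; omega
  have hzm : s i (ev s (s i y) p) ≠ ev s (s i y) p := hrest.1
  have hside : Reach s (adj i) (s i y) (ev s (s i y) p) := by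
    rcases Pc_split hs hz with h1 | h1
    · exfalso
      obtain ⟨u, u1, u2, u3, u4⟩ := (h1.symm hs.inv).short
      have := hsm i _ hzm
      have hlf : LF s (s i y) (p ++ u) := by rw [LF_append]; exact ⟨hlp, u2⟩
      have hcn : cnt s i (Pc adj s i y) (s i y) (p ++ u) = 0 := by
        rw [cnt_append, hc0, cnt_of_ne (v := i) (fun j hj e => hir i (by have := u1 j hj; rwa [e] at this))]
      have hd := del_path hlf hcn
      refine h i (s i y) hm (p ++ u) ?_ (by rw [hP]; exact hd.1) ?_
      · simp only [List.length_append]; omega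
      · rw [hP, hd.2, ev_append, u3, hs.inv]
    · exact h1
  obtain ⟨u, u1, u2, u3, u4⟩ := (hside.symm hs.inv).short
  have hu := hsm i _ hzm
  intro j hj
  obtain ⟨p1, p2, rfl⟩ := List.append_of_mem hj
  have hlf : LF s (s i y) (p1 ++ j :: (p2 ++ u)) := by
    have : LF s (s i y) ((p1 ++ j :: p2) ++ u) := by rw [LF_append]; exact ⟨hlp, u2⟩
    simpa using this
  have hev : ev s (s i y) (p1 ++ j :: (p2 ++ u)) = s i y := by
    have : ev s (s i y) ((p1 ++ j :: p2) ++ u) = s i y := by rw [ev_append]; exact u3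
    simpa using this
  rcases h.once hs (by simp only [List.length_append, List.length_cons] at hplen ⊢; omega)
    hlf hev with h1 | h1
  · exfalso
    obtain ⟨q1, q2, rfl, hq⟩ := cnt_ne_zero h1
    have := hmin (a ++ i :: q1) j q2 (p2 ++ i :: b) (by rw [hwe]; simp) (by
      have e : ev s x (a ++ i :: q1) = ev s (s i y) q1 := by rw [ev_append, ev_cons]
      rw [e, Pc_eq hs hq]
      have : ev s (s j (ev s (s i y) q1)) q2 = ev s (s i y) (q1 ++ j :: q2) := by
        rw [ev_append, ev_cons]
      rw [this]; exact Pc_self _ _ _ _)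
    simp only [List.length_append, List.length_cons] at this; omega
  · rw [cnt_append] at h1
    by_cases h2 : cnt s j (Pc adj s j (ev s (s i y) p1)) (s j (ev s (s i y) p1)) p2 = 0
    · rw [h2, zero_add] at h1
      obtain ⟨q1, q2, rfl, _⟩ := cnt_ne_zero h1
      exact u1 j (by simp)
    · exfalso
      obtain ⟨q1, q2, rfl, hq⟩ := cnt_ne_zero h2
      have := hmin (a ++ i :: p1) j q1 (q2 ++ i :: b) (by rw [hwe]; simp) (by
        have e : ev s x (a ++ i :: p1) = ev s (s i y) p1 := by rw [ev_append, ev_cons]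
        rw [e]; exact hq)
      simp only [List.length_append, List.length_cons] at this; omega

end Pool.Agent.MP_4cbd16_al.RC
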