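import Pool.Agent.MP_4cbd16_al.RC.Corner

/-! Every action has a short code. -/

namespace Pool.Agent.MP_4cbd16_al.RC

open Classical

variable {B X : Type} [Fintype B] [Fintype X]

/-- `s` is determined by at most `m` paid pairs and a table of words of length at most `l` -/
def Good (adj : B → B → Prop) (l : ℕ) (s : B → X → X) (m : ℝ) : Prop :=
  ∃ (S : Finset (B × X)) (D : B → X → List B), (S.card : ℝ) ≤ m ∧
    (∀ p ∈ S, s p.1 p.2 ≠ p.2) ∧ (∀ i x, (D i x).length ≤ l) ∧
    (∀ i x, s i x ≠ x → LF s x (D i x) ∧ ev s x (D i x) = s i x) ∧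
    ∀ s₂ : B → X → X, Act adj s₂ → (∀ p ∈ S, s₂ p.1 p.2 = s p.1 p.2) →
      (∀ i x, s i x ≠ x → s₂ i x = ev s₂ x (D i x)) → ∀ i x, s i x ≠ x → s₂ i x = s i x

omit [Fintype B] [Fintype X] in
lemma Good.mono {adj : B → B → Prop} {l : ℕ} {s : B → X → X} {m m' : ℝ} (h : Good adj l s m)
    (hm : m ≤ m') : Good adj l s m' := by
  obtain ⟨S, D, h1, h2⟩ := h
  exact ⟨S, D, h1.trans hm, h2⟩

omit [Fintype B] [Fintype X] in
lemma extend_piece {adj : B → B → Prop} (hir : ∀ i, ¬ adj i i) {s s₂ : B → X → X}
    (hs : Act adj s) (hs₂ : Act adj s₂) {v : B} {x₀ : X}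
    (hsub : Sub (del s v (Pc adj s v x₀)) s₂) (h0 : s₂ v x₀ = s v x₀) :
    ∀ i x, s i x ≠ x → s₂ i x = s i x := by
  have key : ∀ y x, s₂ v y = s v y → Reach s (adj v) y x → s₂ v x = s v x := by
    rintro y x hy ⟨p, h1, h2, rfl⟩
    have hc : ∀ z, cnt s v (Pc adj s v x₀) z p = 0 := fun z =>
      cnt_of_ne fun j hj e => hir v (by have := h1 j hj; rwa [e] at this)
    have e1 := del_path h2 (hc _)
    have e2 := del_path ((comm_path hs h1 y).2 h2) (hc _)
    have f1 := (hsub.path e1.1).2
    have f2 := (hsub.path e2.1).2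
    rw [← e1.2, ← f1, ← (comm_path hs₂ h1 y).1, hy, f2, e2.2, (comm_path hs h1 y).1, f1, e1.2]
  intro i x hx
  by_cases hc : i = v ∧ x ∈ Pc adj s v x₀
  · obtain ⟨rfl, hm⟩ := hc
    rcases Pc_split hs hm with h | h
    · exact key _ _ h0 h
    · exact key _ _ (by rw [hs.inv, ← h0, hs₂.inv]) h
  · have e : del s v (Pc adj s v x₀) i x = s i x := by unfold del; rw [if_neg hc]
    rw [← e]
    exact hsub i x (by rw [e]; exact hx)

omit [Fintype B] [Fintype X] in
lemma Good.step {adj : B → B → Prop} (hir : ∀ i, ¬ adj i i) {l : ℕ} (hl : 1 ≤ l)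
    {s : B → X → X} (hs : Act adj s) {v : B} {x₀ : X} (hx₀ : s v x₀ ≠ x₀) {m : ℝ}
    (h : Good adj l (del s v (Pc adj s v x₀)) m) :
    Good adj l s (m + 1) ∧ ∀ w : List B, w.length ≤ l → LF (del s v (Pc adj s v x₀)) x₀ w →
      ev (del s v (Pc adj s v x₀)) x₀ w = s v x₀ → Good adj l s m := by
  obtain ⟨S, D, h1, h2, h3, h4, h5⟩ := h
  set s' := del s v (Pc adj s v x₀) with hs'
  have hss : Sub s' s := del_sub _ _ _
  have hS : ∀ p ∈ S, s p.1 p.2 = s' p.1 p.2 := fun p hp => hss _ _ (h2 p hp)
  have hn0 : ¬ s' v x₀ ≠ x₀ := by rw [not_not]; exact del_mem s v (Pc_self _ _ _ _)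
  constructor
  · refine ⟨insert (v, x₀) S, fun i x => if s' i x ≠ x then D i x else [i], ?_, ?_, ?_, ?_, ?_⟩
    · have := Finset.card_insert_le (v, x₀) S
      have : ((insert (v, x₀) S).card : ℝ) ≤ S.card + 1 := by exact_mod_cast this
      linarith
    · intro p hp
      rcases Finset.mem_insert.1 hp with rfl | hp
      · exact hx₀
      · rw [hS p hp]; exact h2 p hp
    · intro i x
      dsimp only
      split_ifs
      · exact h3 i x
      · simpa using hl
    · intro i x hx
      dsimp only
      split_ifs with hc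
      · have := hss.path (h4 i x hc).1
        exact ⟨this.1, by rw [this.2, (h4 i x hc).2, hss i x hc]⟩
      · exact ⟨⟨hx, trivial⟩, rfl⟩
    · intro s₂ hs₂ e1 e2
      refine extend_piece hir hs hs₂ ?_ (e1 (v, x₀) (Finset.mem_insert_self _ _))
      refine h5 s₂ hs₂ (fun p hp => by rw [e1 p (Finset.mem_insert_of_mem hp), hS p hp]) ?_
      intro i x hx
      have := e2 i x (by rw [hss i x hx]; exact hx)
      dsimp only at this
      rwa [if_pos hx] at this
  · intro w hw1 hw2 hw3
    refine ⟨S, fun i x => if s' i x ≠ x then D i x else if i = v ∧ x = x₀ then w else [i],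
      h1, ?_, ?_, ?_, ?_⟩
    · intro p hp
      rw [hS p hp]; exact h2 p hp
    · intro i x
      dsimp only
      split_ifs
      · exact h3 i x
      · exact hw1
      · simpa using hl
    · intro i x hx
      dsimp only
      split_ifs with hc hd
      · have := hss.path (h4 i x hc).1
        exact ⟨this.1, by rw [this.2, (h4 i x hc).2, hss i x hc]⟩
      · obtain ⟨rfl, rfl⟩ := hd
        have := hss.path hw2
        exact ⟨this.1, by rw [this.2, hw3]⟩
      · exact ⟨⟨hx, trivial⟩, rfl⟩
    · intro s₂ hs₂ e1 e2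
      have hsub : Sub s' s₂ := by
        refine h5 s₂ hs₂ (fun p hp => by rw [e1 p hp, hS p hp]) ?_
        intro i x hx
        have := e2 i x (by rw [hss i x hx]; exact hx)
        dsimp only at this
        rwa [if_pos hx] at this
      refine extend_piece hir hs hs₂ hsub ?_
      have := e2 v x₀ hx₀
      dsimp only at this
      rw [if_neg hn0, if_pos ⟨rfl, rfl⟩] at this
      rw [this, (hsub.path hw2).2, hw3]

omit [Fintype X] in
lemma mv_del (s : B → X → X) (v : B) (N : Set X) (y : X) :
    mv (del s v N) y = if y ∈ N then (mv s y).erase v else mv s y := by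
  ext j
  split_ifs with hy
  · rw [Finset.mem_erase, mem_mv, mem_mv]
    by_cases hj : j = v
    · subst hj; simp [del_mem s j hy]
    · rw [del_ne s _ hj]; simp [hj]
  · rw [mem_mv, mem_mv, del_notMem s v j hy]

lemma sum_del (s : B → X → X) (v : B) (N : Set X) (f : Finset B → ℝ) :
    ∑ y, f (mv s y) = ∑ y, f (mv (del s v N) y) +
      ∑ y ∈ Finset.univ.filter (fun y => y ∈ N), (f (mv s y) - f ((mv s y).erase v)) := by
  rw [Finset.sum_filter, ← Finset.sum_add_distrib]
  refine Finset.sum_congr rfl fun y _ => ?_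
  rw [mv_del]
  split_ifs <;> ring

lemma drop_ge_one {adj : B → B → Prop} (hsy : ∀ i j, adj i j → adj j i) (hir : ∀ i, ¬ adj i i)
    {g : Finset B → ℝ} (gm : ∀ A A', A ⊆ A' → g A ≤ g A')
    (g2 : ∀ (A C : Finset B) (v : B), v ∈ A → (∀ j, j ∈ C ↔ j ∈ A ∧ adj v j) →
        (∀ i ∈ C, ∀ j ∈ C, i ≠ j → adj i j) →
        g (A.erase v) + (1 / 2 : ℝ) ^ (C.card + 1) ≤ g A)
    {s : B → X → X} (hs : Act adj s) {r : ℕ} (h : NoB adj s (3 * r))
    (hsm : ∀ v x, s v x ≠ x → (Finset.univ.filter fun z => Reach s (adj v) x z).card < r)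
    {v : B} {x : X} (hx : s v x ≠ x) :
    1 ≤ ∑ y ∈ Finset.univ.filter (fun y => y ∈ Pc adj s v x),
      (g (mv s y) - g ((mv s y).erase v)) := by
  have hcp := h.cp hir hs hsm
  set t : B → X → X := fun j y => if adj v j then s j y else y with ht
  have hts : Sub t s := by
    intro j y hy
    simp only [ht] at hy ⊢
    split_ifs at hy ⊢
    · rfl
    · exact absurd rfl hy
  have hta : Act adj t := by
    constructor
    · intro j y
      simp only [ht]
      split_ifs
      · exact hs.inv j y
      · rfl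
    · intro i j hij y
      simp only [ht]
      split_ifs
      · exact hs.comm i j hij y
      all_goals rfl
  have hlet : ∀ (p : List B) (y : X), LF t y p → ∀ j ∈ p, adj v j := by
    intro p
    induction p with
    | nil => simp
    | cons k p ih =>
      intro y hy j hj
      rcases List.mem_cons.1 hj with rfl | hj
      · by_contra hc
        apply hy.1
        simp only [ht]
        rw [if_neg hc]
      · exact ih _ hy.2 j hj
  have hO : ∀ y ∈ orb t x, Reach s (adj v) x y := by
    intro y hy
    obtain ⟨p, _, h2, rfl⟩ := mem_orb.1 hy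
    exact ⟨p, hlet p x h2, (hts.path h2).1, (hts.path h2).2⟩
  have hPc : ∀ y ∈ orb t x, y ∈ Pc adj s v x := fun y hy =>
    (hO y hy).sub (Sub.refl s) fun _ h => Or.inr h
  have hcard : (orb t x).card < r := by
    refine lt_of_le_of_lt (Finset.card_le_card ?_) (hsm v x hx)
    intro y hy
    simpa using hO y hy
  have h1 := corner hsy hir _ t hta (hcp.sub hts) x rfl hcard
  set Δ : X → ℝ := fun y => g (mv s y) - g ((mv s y).erase v) with hΔ
  have hΔ0 : ∀ y, 0 ≤ Δ y := fun y => sub_nonneg.2 (gm _ _ (Finset.erase_subset _ _))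
  have hw : ∀ y ∈ orb t x, wt adj t y ≤ Δ y + Δ (s v y) := by
    intro y hy
    have hmy : s v y ≠ y := Pc_moved hs hx (hPc y hy)
    unfold wt
    split_ifs with hc
    · have a1 := g2 (mv s y) (mv t y) v (mem_mv.2 hmy) (by
        intro j
        rw [mem_mv, mem_mv]
        simp only [ht]
        split_ifs with hj <;> simp [hj]) hc
      have a2 := g2 (mv s (s v y)) (mv t y) v
        (mem_mv.2 (by rw [hs.inv]; exact fun e => hmy e.symm)) (by
        intro j
        rw [mem_mv, mem_mv]
        simp only [ht]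
        split_ifs with hj
        · simp only [hj, and_true]
          rw [← hs.comm v j hj]
          constructor
          · intro h1 e
            apply h1
            have := congrArg (s v) e
            simpa [hs.inv] using this
          · intro h1 e
            exact h1 (by rw [e])
        · simp [hj]) hc
      simp only [hΔ]
      rw [pow_succ] at a1 a2
      linarith
    · exact add_nonneg (hΔ0 _) (hΔ0 _)
  have hinj : Function.Injective (s v) := fun a b e => by
    have := congrArg (s v) e
    simpa [hs.inv] using this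
  have hdis : Disjoint (orb t x) ((orb t x).image (s v)) := by
    rw [Finset.disjoint_left]
    intro z hz hz'
    obtain ⟨y, hy, rfl⟩ := Finset.mem_image.1 hz'
    have hmy : s v y ≠ y := Pc_moved hs hx (hPc y hy)
    obtain ⟨p, p1, p2, p3, p4⟩ := (((hO y hy).symm hs.inv).trans (hO _ hz)).short
    have := hsm v y hmy
    have hd := del_path (v := v) (N := Pc adj s v y) p2
      (cnt_of_ne fun j hj e => hir v (by have := p1 j hj; rwa [e] at this))
    exact h v y hmy p (by omega) hd.1 (by rw [hd.2, p3])
  have hsub : orb t x ∪ (orb t x).image (s v) ⊆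
      Finset.univ.filter (fun y => y ∈ Pc adj s v x) := by
    intro z hz
    simp only [Finset.mem_filter, Finset.mem_univ, true_and]
    rcases Finset.mem_union.1 hz with hz | hz
    · exact hPc z hz
    · obtain ⟨y, hy, rfl⟩ := Finset.mem_image.1 hz
      exact (Pc_step hs x (Or.inl rfl) y).2 (hPc y hy)
  have h2 := Finset.sum_le_sum hw
  have h3 := Finset.sum_le_sum_of_subset_of_nonneg (f := Δ) hsub fun y _ _ => hΔ0 y
  rw [Finset.sum_union hdis, Finset.sum_image (fun a _ b _ e => hinj e)] at h3
  rw [Finset.sum_add_distrib] at h2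
  linarith

theorem good_all {adj : B → B → Prop} (hsy : ∀ i j, adj i j → adj j i) (hir : ∀ i, ¬ adj i i)
    {g : Finset B → ℝ} (g0 : ∀ A, 0 ≤ g A) (gm : ∀ A A', A ⊆ A' → g A ≤ g A')
    (g2 : ∀ (A C : Finset B) (v : B), v ∈ A → (∀ j, j ∈ C ↔ j ∈ A ∧ adj v j) →
        (∀ i ∈ C, ∀ j ∈ C, i ≠ j → adj i j) →
        g (A.erase v) + (1 / 2 : ℝ) ^ (C.card + 1) ≤ g A)
    {r : ℕ} (hr : 1 ≤ r) : ∀ (n : ℕ) (s : B → X → X), Act adj s → ∑ y, (mv s y).card = n →
      Good adj (3 * r) s (∑ y, g (mv s y) + (∑ y, ((mv s y).card : ℝ)) / r) := by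
  intro n
  induction n using Nat.strong_induction_on with
  | _ n ih =>
    intro s hs hn
    have hr0 : (0 : ℝ) < r := by exact_mod_cast hr
    have hE : ∀ v x, s v x ≠ x → ∑ y, ((mv s y).card : ℝ) =
        ∑ y, ((mv (del s v (Pc adj s v x)) y).card : ℝ) +
          (Finset.univ.filter (fun y => y ∈ Pc adj s v x)).card := by
      intro v x hx
      rw [sum_del s v (Pc adj s v x) (fun A => (A.card : ℝ))]
      congr 1
      rw [Finset.card_eq_sum_ones, Nat.cast_sum]
      refine Finset.sum_congr rfl fun y hy => ?_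
      have hy' : y ∈ Pc adj s v x := by simpa using hy
      have := Finset.card_erase_add_one (mem_mv.2 (Pc_moved hs hx hy'))
      rw [← this]; push_cast; ring
    have hΦ : ∀ v x, 0 ≤ ∑ y ∈ Finset.univ.filter (fun y => y ∈ Pc adj s v x),
        (g (mv s y) - g ((mv s y).erase v)) := fun v x =>
      Finset.sum_nonneg fun y _ => sub_nonneg.2 (gm _ _ (Finset.erase_subset _ _))
    have hih : ∀ v x, s v x ≠ x → Good adj (3 * r) (del s v (Pc adj s v x))
        (∑ y, g (mv (del s v (Pc adj s v x)) y) +
          (∑ y, ((mv (del s v (Pc adj s v x)) y).card : ℝ)) / r) := by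
      intro v x hx
      refine ih _ ?_ _ (del_act hsy hir hs v x) rfl
      have h1 := hE v x hx
      have h2 : 0 < (Finset.univ.filter (fun y => y ∈ Pc adj s v x)).card :=
        Finset.card_pos.2 ⟨x, by simpa using Pc_self adj s v x⟩
      rw [← hn]
      have h3 : ∑ y, (mv s y).card = ∑ y, (mv (del s v (Pc adj s v x)) y).card +
          (Finset.univ.filter (fun y => y ∈ Pc adj s v x)).card := by exact_mod_cast h1
      omega
    by_cases h0 : ∃ v x, s v x ≠ x
    · by_cases hbig : ∃ v x, s v x ≠ x ∧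
          r ≤ (Finset.univ.filter fun z => Reach s (adj v) x z).card
      · obtain ⟨v, x, hx, hb⟩ := hbig
        refine (Good.step hir (by omega) hs hx (hih v x hx)).1.mono ?_
        rw [hE v x hx, sum_del s v (Pc adj s v x) g, add_div]
        have h1 : r ≤ (Finset.univ.filter (fun y => y ∈ Pc adj s v x)).card := by
          refine hb.trans (Finset.card_le_card fun z hz => ?_)
          simp only [Finset.mem_filter, Finset.mem_univ, true_and] at hz ⊢
          exact hz.sub (Sub.refl s) fun _ h => Or.inr h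
        have h2 : (1 : ℝ) ≤ (Finset.univ.filter (fun y => y ∈ Pc adj s v x)).card / r := by
          rw [le_div_iff₀ hr0, one_mul]; exact_mod_cast h1
        have := hΦ v x
        linarith
      · push Not at hbig
        by_cases hnb : NoB adj s (3 * r)
        · obtain ⟨v, x, hx⟩ := h0
          refine (Good.step hir (by omega) hs hx (hih v x hx)).1.mono ?_
          rw [hE v x hx, sum_del s v (Pc adj s v x) g, add_div]
          have h1 := drop_ge_one hsy hir gm g2 hs hnb hbig hx
          have h2 : (0 : ℝ) ≤ (Finset.univ.filter (fun y => y ∈ Pc adj s v x)).card / r := by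
            positivity
          linarith
        · unfold NoB at hnb
          push Not at hnb
          obtain ⟨v, x, hx, w, hw1, hw2, hw3⟩ := hnb
          refine ((Good.step hir (by omega) hs hx (hih v x hx)).2 w hw1 hw2 hw3).mono ?_
          rw [hE v x hx, sum_del s v (Pc adj s v x) g, add_div]
          have h2 : (0 : ℝ) ≤ (Finset.univ.filter (fun y => y ∈ Pc adj s v x)).card / r := by
            positivity
          have := hΦ v x
          linarith
    · push Not at h0
      have h1 : 0 ≤ ∑ y, g (mv s y) := Finset.sum_nonneg fun y _ => g0 _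
      have h2 : 0 ≤ (∑ y, ((mv s y).card : ℝ)) / r :=
        div_nonneg (Finset.sum_nonneg fun y _ => Nat.cast_nonneg _) hr0.le
      refine ⟨∅, fun _ _ => [], ?_, fun p hp => absurd hp (Finset.notMem_empty p),
        fun _ _ => Nat.zero_le _, fun i x hx => absurd (h0 i x) hx,
        fun _ _ _ _ i x hx => absurd (h0 i x) hx⟩
      rw [Finset.card_empty, Nat.cast_zero]
      exact add_nonneg h1 h2

end Pool.Agent.MP_4cbd16_al.RC
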