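import Pool.Agent.MP_4cbd16_al.RC.Cancel

/-! The corner lemma. -/

namespace Pool.Agent.MP_4cbd16_al.RC

open Classical

variable {B X : Type} [Fintype B] [Fintype X]

/-- the letters moving `y` -/
noncomputable def mv (t : B → X → X) (y : X) : Finset B := Finset.univ.filter fun i => t i y ≠ y

/-- weight of a corner -/
noncomputable def wt (adj : B → B → Prop) (t : B → X → X) (y : X) : ℝ :=
  if ∀ i ∈ mv t y, ∀ j ∈ mv t y, i ≠ j → adj i j then (1 / 2 : ℝ) ^ (mv t y).card else 0

/-- the orbit of `x` -/
noncomputable def orb (t : B → X → X) (x : X) : Finset X :=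
  Finset.univ.filter fun z => Reach t (fun _ => True) x z

omit [Fintype X] in
lemma mem_mv {t : B → X → X} {y : X} {i : B} : i ∈ mv t y ↔ t i y ≠ y := by simp [mv]

omit [Fintype B] in
lemma mem_orb {t : B → X → X} {x y : X} : y ∈ orb t x ↔ Reach t (fun _ => True) x y := by
  simp [orb]

omit [Fintype X] in
lemma wt_nonneg (adj : B → B → Prop) (t : B → X → X) (y : X) : 0 ≤ wt adj t y := by
  unfold wt; split_ifs <;> positivity

omit [Fintype B] in
lemma orb_eq {t : B → X → X} (ht : ∀ i x, t i (t i x) = x) {x y : X} (h : y ∈ orb t x) :
    orb t y = orb t x := by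
  ext z
  rw [mem_orb] at h
  rw [mem_orb, mem_orb]
  exact ⟨fun hz => h.trans hz, fun hz => (h.symm ht).trans hz⟩

omit [Fintype B] [Fintype X] in
/-- a path of `t''` whose points avoid `N` is a path of `del t w N` -/
lemma reach_avoid {t t'' : B → X → X} (hsub : Sub t'' t) (w : B) {N : Set X} {b : X}
    (hN : ∀ z, Reach t'' (fun _ => True) b z → z ∉ N) {z : X}
    (hz : Reach t'' (fun _ => True) b z) : Reach (del t w N) (fun _ => True) b z := by
  obtain ⟨p, _, h2, rfl⟩ := hz
  induction p using List.reverseRecOn with
  | nil => exact Reach.refl _ _ _
  | append_singleton p j ih =>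
    rw [LF_append] at h2
    have ih' := ih (fun _ _ => trivial) h2.1
    have hnot := hN _ ⟨p, fun _ _ => trivial, h2.1, rfl⟩
    have := ih'.step (i := j) trivial
    rw [del_notMem t w j hnot, hsub j _ h2.2.1] at this
    rw [ev_append]
    exact this

omit [Fintype B] [Fintype X] in
lemma reach_del_of_ne {t : B → X → X} {J : B → Prop} {u : B} (N : Set X) (hu : ¬ J u) {x y : X}
    (h : Reach t J x y) : Reach (del t u N) (fun _ => True) x y := by
  obtain ⟨p, h1, h2, rfl⟩ := h
  have := del_path (v := u) (N := N) h2 (cnt_of_ne fun j hj e => hu (e ▸ h1 j hj))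
  exact ⟨p, fun _ _ => trivial, this.1, this.2⟩

theorem corner {adj : B → B → Prop} (hsy : ∀ i j, adj i j → adj j i) (hir : ∀ i, ¬ adj i i)
    {r : ℕ} : ∀ (m : ℕ) (t : B → X → X), Act adj t → CP adj t (2 * r) → ∀ x : X,
      (orb t x).card = m → m < r → 1 ≤ ∑ y ∈ orb t x, wt adj t y := by
  intro m
  induction m using Nat.strong_induction_on with
  | _ m ihm =>
    intro t ht hcp x hm hmr
    have hsep : ∀ w a, a ∈ orb t x → t w a ≠ a →
        ¬ Reach (del t w (Pc adj t w a)) (fun _ => True) (t w a) a := by
      intro w a ha hw
      refine hcp.sep hsy ht hw ?_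
      have : orb t a = orb t x := orb_eq ht.inv ha
      change (orb t a).card < r
      rw [this]; omega
    have hsubo : ∀ w N a, a ∈ orb t x → orb (del t w N) a ⊆ orb t x := by
      intro w N a ha z hz
      rw [mem_orb] at ha hz ⊢
      exact ha.trans (hz.sub (del_sub _ _ _) fun _ _ => trivial)
    have half : ∀ (k : ℕ) (w : B) (a : X), a ∈ orb t x → t w a ≠ a →
        (orb (del t w (Pc adj t w a)) a).card = k →
        1 / 2 ≤ ∑ y ∈ orb (del t w (Pc adj t w a)) a, wt adj t y := by
      intro k
      induction k using Nat.strong_induction_on with
      | _ k ihk =>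
        intro w a ha hw hk
        set t' := del t w (Pc adj t w a) with ht'
        have ht'a : Act adj t' := del_act hsy hir ht w a
        by_cases hex : ∃ a' u, Reach t (adj w) a a' ∧ u ≠ w ∧ ¬ adj w u ∧ t u a' ≠ a'
        · obtain ⟨a', u, ha', huw, hadj, hu⟩ := hex
          have ha'o : a' ∈ orb t x := by
            rw [mem_orb] at ha ⊢
            exact ha.trans (ha'.sub (Sub.refl t) fun _ _ => trivial)
          have hbo : t u a' ∈ orb t x := by
            rw [mem_orb] at ha'o ⊢
            exact ha'o.step trivial
          have hP : Pc adj t u (t u a') = Pc adj t u a' :=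
            Pc_eq ht ((Pc_step ht a' (Or.inl rfl) a').2 (Pc_self _ _ _ _))
          have hbm : t u (t u a') ≠ t u a' := by rw [ht.inv]; exact fun e => hu e.symm
          set t'' := del t u (Pc adj t u a') with ht''
          have ht''a : Act adj t'' := del_act hsy hir ht u a'
          have hns : ¬ Reach t'' (fun _ => True) (t u a') a' := hsep u a' ha'o hu
          have hJu : ¬ (u = w ∨ adj w u) := by tauto
          have hNa : ∀ z, z ∈ Pc adj t w a → Reach t'' (fun _ => True) a' z := by
            intro z hz
            have h1 : Reach t (fun j => j = w ∨ adj w j) a' a :=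
              (ha'.sub (Sub.refl t) fun _ h => Or.inr h).symm ht.inv
            exact reach_del_of_ne (J := fun j => j = w ∨ adj w j) _ hJu (h1.trans hz)
          have havoid : ∀ z, Reach t'' (fun _ => True) (t u a') z → z ∉ Pc adj t w a := by
            intro z hz hzN
            exact hns (hz.trans ((hNa z hzN).symm ht''a.inv))
          have haa' : Reach t' (fun _ => True) a a' := reach_del_of_ne _ (hir w) ha'
          have hab : Reach t' (fun _ => True) a (t u a') := by
            have := haa'.step (i := u) trivial
            rwa [ht', del_ne t _ huw] at this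
          have hss : orb t'' (t u a') ⊆ orb t' a := by
            intro z hz
            rw [mem_orb] at hz ⊢
            exact hab.trans (reach_avoid (del_sub _ _ _) w havoid hz)
          have hlt : (orb t'' (t u a')).card < k := by
            rw [← hk]
            refine Finset.card_lt_card ⟨hss, fun hc => hns ?_⟩
            exact mem_orb.1 (hc (mem_orb.2 haa'))
          have := ihk _ hlt u (t u a') hbo hbm (by rw [hP])
          rw [hP] at this
          exact this.trans (Finset.sum_le_sum_of_subset_of_nonneg hss fun y _ _ => wt_nonneg _ _ _)
        · push Not at hex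
          have hin : ∀ y, Reach t' (fun _ => True) a y → Reach t (adj w) a y := by
            rintro y ⟨p, _, h2, rfl⟩
            induction p using List.reverseRecOn with
            | nil => exact Reach.refl _ _ _
            | append_singleton p j ih =>
              rw [LF_append] at h2
              have ih' := ih (fun _ _ => trivial) h2.1
              have hmem : ev t' a p ∈ Pc adj t w a := ih'.sub (Sub.refl t) fun _ h => Or.inr h
              have hjw : j ≠ w := by
                rintro rfl
                exact h2.2.1 (del_mem t j hmem)
              have hmv : t j (ev t' a p) ≠ ev t' a p := by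
                have := h2.2.1
                rwa [ht', del_ne t _ hjw] at this
              have hj : adj w j := by
                by_contra hc
                exact hmv (hex _ j ih' hjw hc)
              rw [ev_append]
              simp only [ev_cons, ev_nil]
              rw [ht', del_ne t _ hjw]
              exact ih'.step hj
          have hwt : ∀ y ∈ orb t' a, wt adj t' y / 2 ≤ wt adj t y := by
            intro y hy
            have hy' := hin y (mem_orb.1 hy)
            have hmem : y ∈ Pc adj t w a := hy'.sub (Sub.refl t) fun _ h => Or.inr h
            have hwy : t w y ≠ y := Pc_moved ht hw hmem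
            have hnot : w ∉ mv t' y := by rw [mem_mv, not_not]; exact del_mem t w hmem
            have hmv : mv t y = insert w (mv t' y) := by
              ext j
              rw [Finset.mem_insert, mem_mv, mem_mv]
              by_cases hj : j = w
              · subst hj; simp [hwy]
              · rw [ht', del_ne t _ hj]; simp [hj]
            have hadj : ∀ j ∈ mv t' y, adj w j := by
              intro j hj
              have hjw : j ≠ w := fun e => hnot (e ▸ hj)
              rw [mem_mv, ht', del_ne t _ hjw] at hj
              by_contra hc
              exact hj (hex y j hy' hjw hc)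
            by_cases hc : ∀ i ∈ mv t' y, ∀ j ∈ mv t' y, i ≠ j → adj i j
            · have hc' : ∀ i ∈ mv t y, ∀ j ∈ mv t y, i ≠ j → adj i j := by
                rw [hmv]
                intro i hi j hj hij
                rcases Finset.mem_insert.1 hi with rfl | hi' <;>
                  rcases Finset.mem_insert.1 hj with rfl | hj'
                · exact absurd rfl hij
                · exact hadj j hj'
                · exact hsy _ _ (hadj i hi')
                · exact hc i hi' j hj' hij
              unfold wt
              rw [if_pos hc, if_pos hc', hmv, Finset.card_insert_of_notMem hnot, pow_succ]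
              linarith
            · have : wt adj t' y = 0 := by unfold wt; rw [if_neg hc]
              rw [this, zero_div]; exact wt_nonneg _ _ _
          have hlt : (orb t' a).card < m := by
            rw [← hm]
            refine Finset.card_lt_card ⟨hsubo w _ a ha, fun hc => hsep w a ha hw ?_⟩
            have : t w a ∈ orb t x := mem_orb.2 ((mem_orb.1 ha).step trivial)
            exact (mem_orb.1 (hc this)).symm ht'a.inv
          have h1 := ihm _ hlt t' ht'a (hcp.sub (del_sub _ _ _)) a rfl (by omega)
          have h2 := Finset.sum_le_sum hwt
          rw [← Finset.sum_div] at h2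
          linarith
    have hx : x ∈ orb t x := mem_orb.2 (Reach.refl _ _ _)
    by_cases h0 : ∃ w, t w x ≠ x
    · obtain ⟨w, hw⟩ := h0
      have hP : Pc adj t w (t w x) = Pc adj t w x :=
        Pc_eq ht ((Pc_step ht x (Or.inl rfl) x).2 (Pc_self _ _ _ _))
      have hx' : t w x ∈ orb t x := mem_orb.2 ((Reach.refl _ _ _).step trivial)
      have hm' : t w (t w x) ≠ t w x := by rw [ht.inv]; exact fun e => hw e.symm
      have h1 := half _ w x hx hw rfl
      have h2 := half _ w (t w x) hx' hm' rfl
      rw [hP] at h2
      have ht'a : Act adj (del t w (Pc adj t w x)) := del_act hsy hir ht w x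
      have hdis : Disjoint (orb (del t w (Pc adj t w x)) x)
          (orb (del t w (Pc adj t w x)) (t w x)) := by
        rw [Finset.disjoint_left]
        intro z hz1 hz2
        exact hsep w x hx hw ((mem_orb.1 hz2).trans ((mem_orb.1 hz1).symm ht'a.inv))
      have h3 := Finset.sum_le_sum_of_subset_of_nonneg (f := wt adj t)
        (Finset.union_subset (hsubo w (Pc adj t w x) x hx) (hsubo w (Pc adj t w x) _ hx'))
        fun y _ _ => wt_nonneg _ _ _
      rw [Finset.sum_union hdis] at h3
      linarith
    · push Not at h0
      have hmv : mv t x = ∅ := by
        ext j; simp [mem_mv, h0 j]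
      have h1 : wt adj t x = 1 := by unfold wt; simp [hmv]
      rw [← h1]
      exact Finset.single_le_sum (f := wt adj t) (fun y _ => wt_nonneg adj t y) hx

end Pool.Agent.MP_4cbd16_al.RC
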