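import Mathlib

/-! Specification of the rows for the subgroup growth of right-angled Coxeter groups. -/

namespace Pool.Agent.MP_4cbd16_al.RC

open Filter

/-- `s` is a family of involutions of `X`, commuting along the edges of `adj`. -/
structure Act {B X : Type} (adj : B → B → Prop) (s : B → X → X) : Prop where
  inv : ∀ i x, s i (s i x) = x
  comm : ∀ i j, adj i j → ∀ x, s i (s j x) = s j (s i x)

/-- clique collections -/
def CC {B : Type} (adj : B → B → Prop) (𝒞 : Finset (Finset B)) : Prop :=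
  (∀ C ∈ 𝒞, ∀ i ∈ C, ∀ j ∈ C, i ≠ j → adj i j) ∧
  (∀ C ∈ 𝒞, ∀ D ∈ 𝒞, C ≠ D → ∀ i ∈ C, ∀ j ∈ D, i ≠ j ∧ ¬ adj i j)

/-- weight of a clique collection -/
noncomputable def wtC {B : Type} (𝒞 : Finset (Finset B)) : ℝ :=
  ∑ C ∈ 𝒞, (1 - (1 / 2 : ℝ) ^ C.card)

/-- the local potential -/
def S_G : Prop :=
  ∀ (B : Type) [Fintype B] [DecidableEq B] (adj : B → B → Prop),
    (∀ i j, adj i j → adj j i) → (∀ i, ¬ adj i i) → ∀ γ : ℝ,
    (∀ 𝒞 : Finset (Finset B), CC adj 𝒞 → wtC 𝒞 ≤ γ) →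
    ∃ g : Finset B → ℝ, (∀ A, 0 ≤ g A) ∧ (∀ A, g A ≤ γ) ∧ (∀ A A', A ⊆ A' → g A ≤ g A') ∧
      ∀ (A C : Finset B) (v : B), v ∈ A → (∀ j, j ∈ C ↔ j ∈ A ∧ adj v j) →
        (∀ i ∈ C, ∀ j ∈ C, i ≠ j → adj i j) →
        g (A.erase v) + (1 / 2 : ℝ) ^ (C.card + 1) ≤ g A

/-- the upper bound for the number of actions -/
def S_H : Prop :=
  ∀ (B : Type) [Fintype B] [DecidableEq B] (adj : B → B → Prop),
    (∀ i j, adj i j → adj j i) → (∀ i, ¬ adj i i) → ∀ γ : ℝ,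
    (∀ 𝒞 : Finset (Finset B), CC adj 𝒞 → wtC 𝒞 ≤ γ) → ∀ δ : ℝ, 0 < δ →
    ∃ K : ℝ, 1 ≤ K ∧ ∀ (X : Type) [Fintype X], 0 < Fintype.card X →
      (Nat.card {s : B → X → X // Act adj s} : ℝ) ≤
        K ^ Fintype.card X * (Fintype.card X : ℝ) ^ ((γ + δ) * Fintype.card X)

/-- subgroups of index `m + 1` against actions on `m + 1` points -/
def S_U : Prop :=
  ∀ (B W : Type) [Fintype B] [DecidableEq B] [Group W] (M : CoxeterMatrix B)
    (_cs : CoxeterSystem M W) (m : ℕ),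
    Finite {H : Subgroup W // H.index = m + 1} ∧
    Nat.card {H : Subgroup W // H.index = m + 1} * m.factorial ≤
      Nat.card {s : B → Option (Fin m) → Option (Fin m) // Act (fun i j => M i j = 2) s}

/-- many tuples of commuting involutions, free or extending a given involution -/
def S_T : Prop :=
  ∀ (I X : Type) [Fintype I] [DecidableEq I] [Fintype X] [DecidableEq X],
    (∏ j ∈ Finset.range (Fintype.card I), (Fintype.card X / 2 ^ (j + 1)).factorial ≤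
      Nat.card {t : I → X → X // Act (fun _ _ => True) t}) ∧
    ∀ (i₀ : I) (τ : X → X), (∀ x, τ (τ x) = x) →
      (Finset.univ.filter fun x => τ x = x).card ≤ 2 →
      ∏ j ∈ Finset.range (Fintype.card I - 1), ((Fintype.card X - 2) / 2 ^ (j + 2)).factorial ≤
        Nat.card {t : I → X → X // Act (fun _ _ => True) t ∧ t i₀ = τ}

/-- the lower bound for the number of subgroups, as a product of factorials -/
def S_L : Prop :=
  ∀ (B W : Type) [Fintype B] [DecidableEq B] [Group W] (M : CoxeterMatrix B)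
    (_cs : CoxeterSystem M W), (∀ i j, i ≠ j → M i j = 2 ∨ M i j = 0) →
    ∀ 𝒞 : Finset (Finset B), CC (fun i j => M i j = 2) 𝒞 →
    ∀ C₁ ∈ 𝒞, ∀ C₂ ∈ 𝒞, C₁ ≠ C₂ → C₁.Nonempty → C₂.Nonempty → ∀ n : ℕ, 0 < n →
      Finite {H : Subgroup W // H.index = n} →
      (∏ j ∈ Finset.range (C₁.card - 1), ((n - 2) / 2 ^ (j + 2)).factorial) *
      (∏ j ∈ Finset.range (C₂.card - 1), ((n - 2) / 2 ^ (j + 2)).factorial) *
      (∏ C ∈ (𝒞.erase C₁).erase C₂, ∏ j ∈ Finset.range C.card, (n / 2 ^ (j + 1)).factorial) ≤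
        Nat.card {H : Subgroup W // H.index = n}

/-- asymptotics of the lower bound -/
def S_A : Prop :=
  ∀ (B : Type) [DecidableEq B] (𝒞 : Finset (Finset B)),
    ∀ C₁ ∈ 𝒞, ∀ C₂ ∈ 𝒞, C₁ ≠ C₂ → C₁.Nonempty → C₂.Nonempty → ∀ ε : ℝ, 0 < ε →
    ∀ᶠ n : ℕ in atTop, (n.factorial : ℝ) ^ (wtC 𝒞 - 1 - ε) ≤
      (((∏ j ∈ Finset.range (C₁.card - 1), ((n - 2) / 2 ^ (j + 2)).factorial) *
      (∏ j ∈ Finset.range (C₂.card - 1), ((n - 2) / 2 ^ (j + 2)).factorial) *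
      (∏ C ∈ (𝒞.erase C₁).erase C₂, ∏ j ∈ Finset.range C.card, (n / 2 ^ (j + 1)).factorial) : ℕ) : ℝ)

/-- the theorem -/
def S_Main : Prop :=
  ∀ (B W : Type) [Fintype B] [DecidableEq B] [Group W] (M : CoxeterMatrix B)
    (_cs : CoxeterSystem M W), (∀ i j, i ≠ j → M i j = 2 ∨ M i j = 0) → (∃ i j, M i j = 0) →
    ∀ γ : ℝ, IsGreatest {x : ℝ | ∃ 𝒞 : Finset (Finset B),
      (∀ C ∈ 𝒞, ∀ i ∈ C, ∀ j ∈ C, M i j ≠ 0) ∧
      (∀ C ∈ 𝒞, ∀ D ∈ 𝒞, C ≠ D → ∀ i ∈ C, ∀ j ∈ D, M i j = 0) ∧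
      x = ∑ C ∈ 𝒞, (1 - (1 / 2 : ℝ) ^ C.card)} γ → ∀ ε : ℝ, 0 < ε →
    ∀ᶠ n : ℕ in atTop,
      (n.factorial : ℝ) ^ (γ - 1 - ε) ≤ Nat.card {H : Subgroup W // H.index = n} ∧
      {H : Subgroup W | H.index ≠ 0 ∧ H.index ≤ n}.Finite ∧
      (Nat.card {H : Subgroup W // H.index ≠ 0 ∧ H.index ≤ n} : ℝ) ≤
        (n.factorial : ℝ) ^ (γ - 1 + ε)

end Pool.Agent.MP_4cbd16_al.RC
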