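import Mathlib
import Pool.Agent.MP_4cbd16_al.RC.Spec

/-! Row G: the local potential. -/

namespace Pool.Agent.MP_4cbd16_al.RC

namespace G

variable {B : Type} [DecidableEq B] {adj : B → B → Prop}

omit [DecidableEq B] in
theorem cc_empty : CC adj (∅ : Finset (Finset B)) :=
  ⟨fun _ h => absurd h (Finset.notMem_empty _), fun _ h => absurd h (Finset.notMem_empty _)⟩

omit [DecidableEq B] in
theorem cc_mono {𝒞 𝒟 : Finset (Finset B)} (h : CC adj 𝒞) (hs : 𝒟 ⊆ 𝒞) : CC adj 𝒟 :=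
  ⟨fun C hC => h.1 C (hs hC), fun C hC D hD => h.2 C (hs hC) D (hs hD)⟩

theorem cc_insert (hsymm : ∀ i j, adj i j → adj j i) {𝒞 : Finset (Finset B)} (h : CC adj 𝒞)
    {E : Finset B} (hE : ∀ i ∈ E, ∀ j ∈ E, i ≠ j → adj i j)
    (hEC : ∀ D ∈ 𝒞, ∀ i ∈ E, ∀ j ∈ D, i ≠ j ∧ ¬ adj i j) : CC adj (insert E 𝒞) := by
  refine ⟨?_, ?_⟩
  · intro C hC
    rcases Finset.mem_insert.1 hC with rfl | hC
    · exact hE
    · exact h.1 C hC
  · intro C hC D hD hCD i hi j hj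
    rcases Finset.mem_insert.1 hC with hCE | hC
    · rcases Finset.mem_insert.1 hD with hDE | hD
      · exact absurd (hCE.trans hDE.symm) hCD
      · exact hEC D hD i (hCE ▸ hi) j hj
    · rcases Finset.mem_insert.1 hD with hDE | hD
      · have := hEC C hC j (hDE ▸ hj) i hi
        exact ⟨fun e => this.1 e.symm, fun a => this.2 (hsymm _ _ a)⟩
      · exact h.2 C hC D hD hCD i hi j hj

theorem wt_insert {𝒞 : Finset (Finset B)} {E : Finset B} (hE : E ∉ 𝒞) :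
    wtC (insert E 𝒞) = (1 - (1 / 2 : ℝ) ^ E.card) + wtC 𝒞 := by
  unfold wtC
  rw [Finset.sum_insert hE]

theorem wt_erase {𝒞 : Finset (Finset B)} {D : Finset B} (hD : D ∈ 𝒞) :
    wtC 𝒞 = (1 - (1 / 2 : ℝ) ^ D.card) + wtC (𝒞.erase D) := by
  rw [← wt_insert (Finset.notMem_erase D 𝒞), Finset.insert_erase hD]

/-- adding the vertex `v` as a new member, when no member meets its link -/
theorem add_vertex (hsymm : ∀ i j, adj i j → adj j i) {𝒞 : Finset (Finset B)} (h : CC adj 𝒞)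
    {A C : Finset B} {v : B} (hv : v ∈ A) (hC : ∀ j, j ∈ C ↔ j ∈ A ∧ adj v j)
    (hA : ∀ D ∈ 𝒞, D ⊆ A.erase v) (hno : ∀ D ∈ 𝒞, ∀ j ∈ D, j ∉ C) :
    ∃ 𝒟 : Finset (Finset B), CC adj 𝒟 ∧ (∀ D ∈ 𝒟, D ⊆ A) ∧ wtC 𝒟 = 1 / 2 + wtC 𝒞 := by
  have hnot : ({v} : Finset B) ∉ 𝒞 := fun hm =>
    Finset.notMem_erase v A (hA _ hm (Finset.mem_singleton_self v))
  refine ⟨insert {v} 𝒞, cc_insert hsymm h ?_ ?_, ?_, ?_⟩
  · intro i hi j hj hij
    exact absurd ((Finset.mem_singleton.1 hi).trans (Finset.mem_singleton.1 hj).symm) hij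
  · intro D hD i hi j hj
    rw [Finset.mem_singleton.1 hi]
    have hj' := Finset.mem_erase.1 (hA D hD hj)
    exact ⟨fun e => hj'.1 e.symm, fun a => hno D hD j hj ((hC j).2 ⟨hj'.2, a⟩)⟩
  · intro D hD
    rcases Finset.mem_insert.1 hD with rfl | hD
    · exact Finset.singleton_subset_iff.2 hv
    · exact (hA D hD).trans (Finset.erase_subset _ _)
  · rw [wt_insert hnot, Finset.card_singleton]
    norm_num

theorem half_pow_le {a b : ℕ} (h : a ≤ b) : (1 / 2 : ℝ) ^ b ≤ (1 / 2 : ℝ) ^ a :=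
  pow_le_pow_of_le_one (by norm_num) (by norm_num) h

/-- the exchange step -/
theorem exchange (hsymm : ∀ i j, adj i j → adj j i) {𝒞 : Finset (Finset B)} (h : CC adj 𝒞)
    {A C : Finset B} {v : B} (hv : v ∈ A) (hC : ∀ j, j ∈ C ↔ j ∈ A ∧ adj v j)
    (hcl : ∀ i ∈ C, ∀ j ∈ C, i ≠ j → adj i j) (hA : ∀ D ∈ 𝒞, D ⊆ A.erase v) :
    ∃ 𝒟 : Finset (Finset B), CC adj 𝒟 ∧ (∀ D ∈ 𝒟, D ⊆ A) ∧
      wtC 𝒞 + (1 / 2 : ℝ) ^ (C.card + 1) ≤ wtC 𝒟 := by
  by_cases hno : ∀ D ∈ 𝒞, ∀ j ∈ D, j ∉ C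
  · obtain ⟨𝒟, h1, h2, h3⟩ := add_vertex hsymm h hv hC hA hno
    refine ⟨𝒟, h1, h2, ?_⟩
    have : (1 / 2 : ℝ) ^ (C.card + 1) ≤ (1 / 2 : ℝ) ^ 1 := half_pow_le (by omega)
    rw [h3]
    linarith
  · push Not at hno
    obtain ⟨D, hD, i₀, hi₀D, hi₀C⟩ := hno
    have hoth : ∀ D' ∈ 𝒞.erase D, ∀ j ∈ D', j ∉ C := by
      intro D' hD' j hj hjC
      have hD'' := Finset.mem_erase.1 hD'
      have := h.2 D hD D' hD''.2 (fun e => hD''.1 e.symm) i₀ hi₀D j hj
      exact this.2 (hcl i₀ hi₀C j hjC this.1)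
    have hcross : ∀ D' ∈ 𝒞.erase D, ∀ i ∈ D, ∀ j ∈ D', i ≠ j ∧ ¬ adj i j := by
      intro D' hD' i hi j hj
      have hD'' := Finset.mem_erase.1 hD'
      exact h.2 D hD D' hD''.2 (fun e => hD''.1 e.symm) i hi j hj
    have hAe : ∀ D' ∈ 𝒞.erase D, D' ⊆ A.erase v := fun D' hD' =>
      hA D' (Finset.mem_of_mem_erase hD')
    have he : CC adj (𝒞.erase D) := cc_mono h (Finset.erase_subset _ _)
    have hvD : v ∉ D := fun hm => Finset.notMem_erase v A (hA D hD hm)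
    by_cases hDC : D ⊆ C
    · have hnot : insert v D ∉ 𝒞.erase D := fun hm =>
        Finset.notMem_erase v A (hAe _ hm (Finset.mem_insert_self v D))
      refine ⟨insert (insert v D) (𝒞.erase D), cc_insert hsymm he ?_ ?_, ?_, ?_⟩
      · intro i hi j hj hij
        rcases Finset.mem_insert.1 hi with hiv | hi
        · rcases Finset.mem_insert.1 hj with hjv | hj
          · exact absurd (hiv.trans hjv.symm) hij
          · rw [hiv]; exact ((hC j).1 (hDC hj)).2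
        · rcases Finset.mem_insert.1 hj with hjv | hj
          · rw [hjv]; exact hsymm _ _ ((hC i).1 (hDC hi)).2
          · exact h.1 D hD i hi j hj hij
      · intro D' hD' i hi j hj
        rcases Finset.mem_insert.1 hi with hiv | hi
        · rw [hiv]
          have hj' := Finset.mem_erase.1 (hAe D' hD' hj)
          exact ⟨fun e => hj'.1 e.symm, fun a => hoth D' hD' j hj ((hC j).2 ⟨hj'.2, a⟩)⟩
        · exact hcross D' hD' i hi j hj
      · intro D' hD'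
        rcases Finset.mem_insert.1 hD' with rfl | hD'
        · exact Finset.insert_subset hv ((hA D hD).trans (Finset.erase_subset _ _))
        · exact (hAe D' hD').trans (Finset.erase_subset _ _)
      · rw [wt_insert hnot, wt_erase hD, Finset.card_insert_of_notMem hvD]
        have h1 : (1 / 2 : ℝ) ^ (C.card + 1) ≤ (1 / 2 : ℝ) ^ (D.card + 1) :=
          half_pow_le (Nat.succ_le_succ (Finset.card_le_card hDC))
        have h2 : (1 / 2 : ℝ) ^ (D.card + 1) = (1 / 2 : ℝ) ^ D.card * (1 / 2) := pow_succ _ _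
        linarith
    · obtain ⟨j₀, hj₀D, hj₀C⟩ := Finset.not_subset.1 hDC
      have hj₀ : j₀ ∈ D \ C := Finset.mem_sdiff.2 ⟨hj₀D, hj₀C⟩
      have hnot : D \ C ∉ 𝒞.erase D := fun hm => (hcross _ hm j₀ hj₀D j₀ hj₀).1 rfl
      have hcc : CC adj (insert (D \ C) (𝒞.erase D)) := by
        refine cc_insert hsymm he ?_ ?_
        · intro i hi j hj hij
          exact h.1 D hD i (Finset.mem_sdiff.1 hi).1 j (Finset.mem_sdiff.1 hj).1 hij
        · intro D' hD' i hi j hj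
          exact hcross D' hD' i (Finset.mem_sdiff.1 hi).1 j hj
      have hA' : ∀ D' ∈ insert (D \ C) (𝒞.erase D), D' ⊆ A.erase v := by
        intro D' hD'
        rcases Finset.mem_insert.1 hD' with rfl | hD'
        · exact Finset.sdiff_subset.trans (hA D hD)
        · exact hAe D' hD'
      have hno' : ∀ D' ∈ insert (D \ C) (𝒞.erase D), ∀ j ∈ D', j ∉ C := by
        intro D' hD' j hj
        rcases Finset.mem_insert.1 hD' with rfl | hD'
        · exact (Finset.mem_sdiff.1 hj).2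
        · exact hoth D' hD' j hj
      obtain ⟨𝒟, h1, h2, h3⟩ := add_vertex hsymm hcc hv hC hA' hno'
      refine ⟨𝒟, h1, h2, ?_⟩
      rw [h3, wt_insert hnot, wt_erase hD]
      have hcard : D.card = (D \ C).card + (D ∩ C).card :=
        (Finset.card_sdiff_add_card_inter D C).symm
      have hd2 : 1 ≤ (D \ C).card := Finset.card_pos.2 ⟨j₀, hj₀⟩
      have hd1 : (D ∩ C).card ≤ C.card := Finset.card_le_card Finset.inter_subset_right
      have e1 : (1 / 2 : ℝ) ^ D.card = (1 / 2 : ℝ) ^ (D \ C).card * (1 / 2 : ℝ) ^ (D ∩ C).card := by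
        rw [hcard, pow_add]
      have e2 : (1 / 2 : ℝ) ^ (D \ C).card ≤ 1 / 2 := by
        have := half_pow_le hd2
        simpa using this
      have e3 : (1 / 2 : ℝ) ^ (D ∩ C).card ≤ 1 := by
        have := half_pow_le (Nat.zero_le (D ∩ C).card)
        simpa using this
      have e4 : (1 / 2 : ℝ) ^ C.card ≤ (1 / 2 : ℝ) ^ (D ∩ C).card := half_pow_le hd1
      rw [e1, pow_succ]
      nlinarith [mul_nonneg (sub_nonneg.2 e2) (sub_nonneg.2 e3)]

end G

open Classical in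
theorem row_G : S_G := by
  intro B _ _ adj hsymm _ γ hγ
  let F : Finset B → Finset (Finset (Finset B)) := fun A =>
    Finset.univ.filter fun 𝒞 => CC adj 𝒞 ∧ ∀ D ∈ 𝒞, D ⊆ A
  have hmem : ∀ A 𝒞, 𝒞 ∈ F A ↔ CC adj 𝒞 ∧ ∀ D ∈ 𝒞, D ⊆ A := by
    intro A 𝒞
    simp only [F, Finset.mem_filter, Finset.mem_univ, true_and]
  have h0 : ∀ A, (∅ : Finset (Finset B)) ∈ F A := fun A =>
    (hmem A ∅).2 ⟨G.cc_empty, fun _ h => absurd h (Finset.notMem_empty _)⟩
  have hne : ∀ A, (F A).Nonempty := fun A => ⟨∅, h0 A⟩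
  refine ⟨fun A => (F A).sup' (hne A) wtC, ?_, ?_, ?_, ?_⟩
  · intro A
    have h1 := Finset.le_sup' (wtC (B := B)) (h0 A)
    have h2 : wtC (∅ : Finset (Finset B)) = 0 := Finset.sum_empty
    rw [h2] at h1
    exact h1
  · intro A
    exact Finset.sup'_le _ _ fun 𝒞 h𝒞 => hγ 𝒞 ((hmem A 𝒞).1 h𝒞).1
  · intro A A' hAA'
    refine Finset.sup'_le _ _ fun 𝒞 h𝒞 => ?_
    have h1 := (hmem A 𝒞).1 h𝒞
    exact Finset.le_sup' (wtC (B := B))
      ((hmem A' 𝒞).2 ⟨h1.1, fun D hD => (h1.2 D hD).trans hAA'⟩)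
  · intro A C v hv hC hcl
    obtain ⟨𝒞, h𝒞, he⟩ := Finset.exists_mem_eq_sup' (hne (A.erase v)) (wtC (B := B))
    have h1 := (hmem _ 𝒞).1 h𝒞
    obtain ⟨𝒟, h2, h3, h4⟩ := G.exchange hsymm h1.1 hv hC hcl h1.2
    have h5 := Finset.le_sup' (wtC (B := B)) ((hmem A 𝒟).2 ⟨h2, h3⟩)
    show (F (A.erase v)).sup' (hne _) wtC + _ ≤ (F A).sup' (hne A) wtC
    rw [he]
    exact h4.trans h5

end Pool.Agent.MP_4cbd16_al.RC
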