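import Pool.Agent.MP_4cbd16_al.RC.Code

/-! Counting actions through their codes. -/

namespace Pool.Agent.MP_4cbd16_al.RC

open Classical

lemma count_good {B X : Type} [Fintype B] [Fintype X] (adj : B → B → Prop) (l : ℕ) (m : ℝ)
    (hX : 0 < Fintype.card X) (h : ∀ s : B → X → X, Act adj s → Good adj l s m) :
    (Nat.card {s : B → X → X // Act adj s} : ℝ) ≤
      ((4 * Nat.card {w : List B // w.length ≤ l}) ^ Fintype.card B) ^ Fintype.card X *
        (Fintype.card X : ℝ) ^ m := by
  haveI : Finite {w : List B // w.length ≤ l} := List.finite_length_le B l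
  haveI : Fintype {w : List B // w.length ≤ l} := Fintype.ofFinite _
  choose S D hS h2 hD h4 h5 using fun s : {s : B → X → X // Act adj s} => h s.1 s.2
  let c : {s : B → X → X // Act adj s} →
      Finset (B × X) × Finset (B × X) × (B → X → {w : List B // w.length ≤ l}) :=
    fun s => (Finset.univ.filter (fun p : B × X => s.1 p.1 p.2 ≠ p.2), S s,
      fun i x => ⟨D s i x, hD s i x⟩)
  have hn1 : (1 : ℝ) ≤ Fintype.card X := by exact_mod_cast hX
  have hfib : ∀ t, ((Finset.univ.filter fun s => c s = t).card : ℝ) ≤
      (Fintype.card X : ℝ) ^ m := by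
    intro t
    rcases (Finset.univ.filter fun s => c s = t).eq_empty_or_nonempty with he | ⟨s₀, hs₀⟩
    · rw [he, Finset.card_empty, Nat.cast_zero]; positivity
    · have e0 : c s₀ = t := by simpa using hs₀
      have hle : (Finset.univ.filter fun s => c s = t).card ≤
          (Finset.univ : Finset (t.2.1 → X)).card := by
        refine Finset.card_le_card_of_injOn (fun s p => s.1 p.1.1 p.1.2)
          (fun _ _ => Finset.mem_coe.2 (Finset.mem_univ _)) ?_
        intro s hs s' hs' e
        have e1 : c s = t := by simpa using hs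
        have e2 : c s' = t := by simpa using hs'
        have e3 : c s = c s' := e1.trans e2.symm
        have hM : ∀ i x, s.1 i x ≠ x ↔ s'.1 i x ≠ x := by
          intro i x
          have := congrArg (fun u => (i, x) ∈ u.1) e3
          simpa [c] using this
        have hDD : ∀ i x, D s i x = D s' i x := by
          intro i x
          exact congrArg (fun u => (u.2.2 i x).1) e3
        have hSt : S s = t.2.1 := congrArg (fun u => u.2.1) e1
        have key := h5 s s'.1 s'.2 (fun p hp => (congrFun e ⟨p, hSt ▸ hp⟩).symm) (by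
          intro i x hx
          rw [hDD, (h4 s' i x ((hM i x).1 hx)).2])
        apply Subtype.ext
        funext i x
        by_cases hx : s.1 i x = x
        · have : s'.1 i x = x := by
            by_contra hc
            exact (hM i x).2 hc hx
          rw [hx, this]
        · exact (key i x hx).symm
      have hSt : S s₀ = t.2.1 := congrArg (fun u => u.2.1) e0
      rw [Finset.card_univ, Fintype.card_fun, Fintype.card_coe, ← hSt] at hle
      calc ((Finset.univ.filter fun s => c s = t).card : ℝ)
          ≤ ((Fintype.card X ^ (S s₀).card : ℕ) : ℝ) := by exact_mod_cast hle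
        _ = (Fintype.card X : ℝ) ^ ((S s₀).card : ℝ) := by rw [Real.rpow_natCast]; push_cast; rfl
        _ ≤ _ := Real.rpow_le_rpow_of_exponent_le hn1 (hS s₀)
  have hsum := Finset.card_eq_sum_card_fiberwise (f := c) (s := Finset.univ) (t := Finset.univ)
    (fun _ _ => Finset.mem_coe.2 (Finset.mem_univ _))
  rw [Nat.card_eq_fintype_card, ← Finset.card_univ, hsum, Nat.cast_sum]
  refine (Finset.sum_le_card_nsmul _ _ _ fun t _ => hfib t).trans (le_of_eq ?_)
  rw [nsmul_eq_mul, Finset.card_univ]
  congr 1
  simp only [Fintype.card_prod, Fintype.card_finset, Fintype.card_fun, Nat.card_eq_fintype_card]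
  push_cast
  rw [show (4 : ℝ) = 2 * 2 by norm_num]
  simp only [mul_pow, ← pow_mul]
  rw [mul_comm (Fintype.card X) (Fintype.card B), mul_assoc]

theorem row_H (hG : S_G) : S_H := by
  intro B _ _ adj hsy hir γ hγ δ hδ
  obtain ⟨g, g0, g1, gm, g2⟩ := @hG B _ (fun a b => Classical.propDecidable (a = b)) adj hsy hir γ hγ
  obtain ⟨r, hr⟩ := exists_nat_gt (Fintype.card B / δ)
  have hr0 : (0 : ℝ) < r := lt_of_le_of_lt (by positivity) hr
  have hr1 : 1 ≤ r := by exact_mod_cast hr0
  haveI : Finite {w : List B // w.length ≤ 3 * r} := List.finite_length_le B _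
  haveI : Nonempty {w : List B // w.length ≤ 3 * r} := ⟨⟨[], Nat.zero_le _⟩⟩
  have hL : (1 : ℝ) ≤ Nat.card {w : List B // w.length ≤ 3 * r} := by
    exact_mod_cast Nat.card_pos
  refine ⟨(4 * Nat.card {w : List B // w.length ≤ 3 * r}) ^ Fintype.card B,
    one_le_pow₀ (by linarith), fun X _ hX => count_good adj (3 * r) _ hX fun s hs => ?_⟩
  refine (good_all hsy hir g0 gm g2 hr1 _ s hs rfl).mono ?_
  have h1 : ∑ y, g (mv s y) ≤ Fintype.card X * γ := by
    have := Finset.sum_le_card_nsmul Finset.univ (fun y => g (mv s y)) γ fun y _ => g1 _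
    rwa [nsmul_eq_mul, Finset.card_univ] at this
  have h2 : ∑ y, ((mv s y).card : ℝ) ≤ Fintype.card X * Fintype.card B := by
    have := Finset.sum_le_card_nsmul Finset.univ (fun y => ((mv s y).card : ℝ)) (Fintype.card B)
      fun y _ => by exact_mod_cast Finset.card_le_univ _
    rwa [nsmul_eq_mul, Finset.card_univ] at this
  have h3 : (∑ y, ((mv s y).card : ℝ)) / r ≤ Fintype.card X * δ := by
    rw [div_le_iff₀ hr0, mul_assoc]
    rw [div_lt_iff₀ hδ] at hr
    refine h2.trans (mul_le_mul_of_nonneg_left ?_ (Nat.cast_nonneg _))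
    linarith
  linarith

end Pool.Agent.MP_4cbd16_al.RC
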