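import Pool.Agent.MP_4cbd16_al.RC.Spec

/-! The lower bound for the number of subgroups of given index. -/

namespace Pool.Agent.MP_4cbd16_al.RC

namespace L

/-- an equation `x + x = c` has at most two solutions modulo `n` -/
theorem two_sol (n : ℕ) [NeZero n] (c : ZMod n) (p : ZMod n → Prop) [DecidablePred p]
    (hp : ∀ x, p x → x + x = c) : (Finset.univ.filter p).card ≤ 2 := by
  classical
  have hsub : Finset.univ.filter p ⊆
      {((c.val / 2 : ℕ) : ZMod n), (((c.val + n) / 2 : ℕ) : ZMod n)} := by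
    intro x hx
    have h0 := hp x (Finset.mem_filter.1 hx).2
    have h1 := ZMod.val_add x x
    rw [h0] at h1
    have h2 := ZMod.val_lt x
    have h3 : ((x.val : ℕ) : ZMod n) = x := ZMod.natCast_zmod_val x
    rw [Finset.mem_insert, Finset.mem_singleton]
    rcases lt_or_ge (x.val + x.val) n with h | h
    · rw [Nat.mod_eq_of_lt h] at h1
      left
      rw [← h3]
      congr 1
      omega
    · rw [Nat.mod_eq_sub_mod h, Nat.mod_eq_of_lt (by omega)] at h1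
      right
      rw [← h3]
      congr 1
      omega
  exact (Finset.card_le_card hsub).trans Finset.card_le_two

section hom

variable {B W X : Type} [Group W] {M : CoxeterMatrix B}

/-- the permutation given by one involution of the family -/
def prm {adj : B → B → Prop} {s : B → X → X} (h : Act adj s) (i : B) : Equiv.Perm X :=
  ⟨s i, s i, h.inv i, h.inv i⟩

theorem liftable (hM : ∀ i j, i ≠ j → M i j = 2 ∨ M i j = 0) {s : B → X → X}
    (h : Act (fun i j => M i j = 2) s) : M.IsLiftable (prm h) := by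
  intro i j
  by_cases e : i = j
  · subst e
    rw [M.diagonal, pow_one]
    ext x
    exact h.inv i x
  · rcases hM i j e with h2 | h0
    · rw [h2, pow_two]
      ext x
      change s i (s j (s i (s j x))) = x
      rw [h.comm i j h2, h.inv i, h.inv j]
    · rw [h0, pow_zero]

/-- the action of the group given by a family of involutions -/
noncomputable def hom (cs : CoxeterSystem M W) (hM : ∀ i j, i ≠ j → M i j = 2 ∨ M i j = 0)
    {s : B → X → X} (h : Act (fun i j => M i j = 2) s) : W →* Equiv.Perm X :=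
  cs.lift ⟨prm h, liftable hM h⟩

theorem hom_simple (cs : CoxeterSystem M W) (hM : ∀ i j, i ≠ j → M i j = 2 ∨ M i j = 0)
    {s : B → X → X} (h : Act (fun i j => M i j = 2) s) (i : B) (x : X) :
    hom cs hM h (cs.simple i) x = s i x := by
  unfold hom
  rw [cs.lift_apply_simple]
  rfl

end hom

section stab

variable {W : Type} [Group W] {n : ℕ}

theorem pow_zero_pt (φ : W →* Equiv.Perm (ZMod n)) (w : W) (hw : ∀ x, φ w x = x + 1) (k : ℕ) :
    φ (w ^ k) 0 = (k : ZMod n) := by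
  induction k with
  | zero => simp
  | succ k ih =>
    rw [pow_succ', map_mul, Equiv.Perm.mul_apply, ih, hw]
    push_cast
    rfl

/-- the stabiliser of the origin -/
def stab (φ : W →* Equiv.Perm (ZMod n)) : Subgroup W :=
  (MulAction.stabilizer (Equiv.Perm (ZMod n)) (0 : ZMod n)).comap φ

theorem mem_stab (φ : W →* Equiv.Perm (ZMod n)) (g : W) : g ∈ stab φ ↔ φ g 0 = 0 := Iff.rfl

theorem index_stab [NeZero n] (φ : W →* Equiv.Perm (ZMod n)) (w : W)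
    (hw : ∀ x, φ w x = x + 1) : (stab φ).index = n := by
  let _ : MulAction W (ZMod n) := MulAction.compHom (ZMod n) φ
  have hs : ∀ (g : W) (x : ZMod n), g • x = φ g x := fun _ _ => rfl
  have : MulAction.IsPretransitive W (ZMod n) := by
    refine ⟨fun x y => ⟨w ^ y.val * (w ^ x.val)⁻¹, ?_⟩⟩
    have hx := pow_zero_pt φ w hw x.val
    have hy := pow_zero_pt φ w hw y.val
    rw [ZMod.natCast_zmod_val] at hx hy
    have : φ (w ^ x.val)⁻¹ x = 0 := by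
      rw [map_inv, Equiv.Perm.inv_eq_iff_eq, hx]
    rw [hs, map_mul, Equiv.Perm.mul_apply, this, hy]
  have h1 : stab φ = MulAction.stabilizer W (0 : ZMod n) := by
    ext g
    rfl
  rw [h1, MulAction.index_stabilizer_of_transitive, Nat.card_zmod]

theorem eq_of_stab [NeZero n] (φ ψ : W →* Equiv.Perm (ZMod n)) (w : W)
    (hw : ∀ x, φ w x = x + 1) (hw' : ∀ x, ψ w x = x + 1) (e : stab φ = stab ψ)
    (g : W) (x : ZMod n) : φ g x = ψ g x := by
  have key : ∀ (χ : W →* Equiv.Perm (ZMod n)), (∀ x, χ w x = x + 1) → ∀ y : ZMod n,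
      ((w ^ y.val)⁻¹ * g * w ^ x.val ∈ stab χ ↔ χ g x = y) := by
    intro χ hχ y
    have hx := pow_zero_pt χ w hχ x.val
    have hy := pow_zero_pt χ w hχ y.val
    rw [ZMod.natCast_zmod_val] at hx hy
    rw [mem_stab, map_mul, map_mul, Equiv.Perm.mul_apply, Equiv.Perm.mul_apply, hx, map_inv,
      Equiv.Perm.inv_eq_iff_eq, hy]
  have h1 := (key φ hw (φ g x)).2 rfl
  rw [e] at h1
  exact ((key ψ hw' (φ g x)).1 h1).symm

end stab

/-- actions with two prescribed generators inject into the subgroups of index `n` -/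
theorem act_le {B W : Type} [Group W] {M : CoxeterMatrix B} (cs : CoxeterSystem M W)
    (hM : ∀ i j, i ≠ j → M i j = 2 ∨ M i j = 0) (n : ℕ) [NeZero n] (i₁ i₂ : B)
    (hf : Finite {H : Subgroup W // H.index = n}) :
    Nat.card {s : B → ZMod n → ZMod n // Act (fun i j => M i j = 2) s ∧
      s i₁ = (fun x => -x) ∧ s i₂ = fun x => 1 - x} ≤
      Nat.card {H : Subgroup W // H.index = n} := by
  have hw : ∀ s : {s : B → ZMod n → ZMod n // Act (fun i j => M i j = 2) s ∧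
      s i₁ = (fun x => -x) ∧ s i₂ = fun x => 1 - x}, ∀ x,
      hom cs hM s.2.1 (cs.simple i₂ * cs.simple i₁) x = x + 1 := by
    intro s x
    rw [map_mul, Equiv.Perm.mul_apply, hom_simple, hom_simple, s.2.2.1, s.2.2.2]
    ring
  refine Nat.card_le_card_of_injective
    (fun s => ⟨stab (hom cs hM s.2.1), index_stab _ _ (hw s)⟩) ?_
  intro s t e
  have e' : stab (hom cs hM s.2.1) = stab (hom cs hM t.2.1) := congrArg Subtype.val e
  apply Subtype.ext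
  funext i x
  have := eq_of_stab _ _ _ (hw s) (hw t) e' (cs.simple i) x
  rwa [hom_simple, hom_simple] at this

section glue

variable {B X : Type}

/-- tuples of commuting involutions on a block, with two prescribed values where relevant -/
def Tup (i₁ i₂ : B) (τ₁ τ₂ : X → X) (C : Finset B) : Type :=
  {t : C → X → X // Act (fun _ _ => True) t ∧ (∀ h : i₁ ∈ C, t ⟨i₁, h⟩ = τ₁) ∧
    ∀ h : i₂ ∈ C, t ⟨i₂, h⟩ = τ₂}

open Classical in
/-- gluing tuples along a family of blocks -/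
noncomputable def glue {i₁ i₂ : B} {τ₁ τ₂ : X → X} {𝒞 : Finset (Finset B)}
    (t : ∀ C : 𝒞, Tup i₁ i₂ τ₁ τ₂ C.1) (i : B) : X → X :=
  if h : ∃ C ∈ 𝒞, i ∈ C then (t ⟨h.choose, h.choose_spec.1⟩).1 ⟨i, h.choose_spec.2⟩ else id

theorem glue_mem {adj : B → B → Prop} {i₁ i₂ : B} {τ₁ τ₂ : X → X} {𝒞 : Finset (Finset B)}
    (h𝒞 : CC adj 𝒞) (t : ∀ C : 𝒞, Tup i₁ i₂ τ₁ τ₂ C.1) {C : Finset B} (hC : C ∈ 𝒞) {i : B}
    (hi : i ∈ C) : glue t i = (t ⟨C, hC⟩).1 ⟨i, hi⟩ := by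
  have h : ∃ C ∈ 𝒞, i ∈ C := ⟨C, hC, hi⟩
  have key : ∀ (D : Finset B) (hD : D ∈ 𝒞) (hi' : i ∈ D),
      (t ⟨D, hD⟩).1 ⟨i, hi'⟩ = (t ⟨C, hC⟩).1 ⟨i, hi⟩ := by
    intro D hD hi'
    have e : D = C := by
      by_contra e
      exact (h𝒞.2 D hD C hC e i hi' i hi).1 rfl
    subst e
    rfl
  unfold glue
  rw [dif_pos h]
  exact key _ _ _

theorem glue_not {i₁ i₂ : B} {τ₁ τ₂ : X → X} {𝒞 : Finset (Finset B)}
    (t : ∀ C : 𝒞, Tup i₁ i₂ τ₁ τ₂ C.1) {i : B} (hi : ¬ ∃ C ∈ 𝒞, i ∈ C) : glue t i = id := by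
  unfold glue
  rw [dif_neg hi]

theorem glue_act {adj : B → B → Prop} {i₁ i₂ : B} {τ₁ τ₂ : X → X} {𝒞 : Finset (Finset B)}
    (h𝒞 : CC adj 𝒞) (t : ∀ C : 𝒞, Tup i₁ i₂ τ₁ τ₂ C.1) : Act adj (glue t) := by
  constructor
  · intro i x
    by_cases hi : ∃ C ∈ 𝒞, i ∈ C
    · obtain ⟨C, hC, hi⟩ := hi
      rw [glue_mem h𝒞 t hC hi]
      exact (t ⟨C, hC⟩).2.1.inv _ x
    · rw [glue_not t hi]
      rfl
  · intro i j hij x
    by_cases hi : ∃ C ∈ 𝒞, i ∈ C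
    · by_cases hj : ∃ C ∈ 𝒞, j ∈ C
      · obtain ⟨C, hC, hi⟩ := hi
        obtain ⟨D, hD, hj⟩ := hj
        have e : D = C := by
          by_contra e
          exact (h𝒞.2 C hC D hD (Ne.symm e) i hi j hj).2 hij
        subst e
        rw [glue_mem h𝒞 t hD hi, glue_mem h𝒞 t hD hj]
        exact (t ⟨D, hD⟩).2.1.comm _ _ trivial x
      · rw [glue_not t hj]
        rfl
    · rw [glue_not t hi]
      rfl

theorem prod_le [Finite B] [Finite X] {adj : B → B → Prop} {i₁ i₂ : B} (τ₁ τ₂ : X → X)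
    {𝒞 : Finset (Finset B)} (h𝒞 : CC adj 𝒞) {C₁ C₂ : Finset B} (h₁ : C₁ ∈ 𝒞) (h₂ : C₂ ∈ 𝒞)
    (hi₁ : i₁ ∈ C₁) (hi₂ : i₂ ∈ C₂) :
    ∏ C ∈ 𝒞, Nat.card (Tup i₁ i₂ τ₁ τ₂ C) ≤
      Nat.card {s : B → X → X // Act adj s ∧ s i₁ = τ₁ ∧ s i₂ = τ₂} := by
  rw [← Finset.prod_coe_sort 𝒞 (fun C => Nat.card (Tup i₁ i₂ τ₁ τ₂ C)), ← Nat.card_pi]
  refine Nat.card_le_card_of_injective (fun t => ⟨glue t, glue_act h𝒞 t, ?_, ?_⟩) ?_
  · rw [glue_mem h𝒞 t h₁ hi₁]
    exact (t ⟨C₁, h₁⟩).2.2.1 hi₁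
  · rw [glue_mem h𝒞 t h₂ hi₂]
    exact (t ⟨C₂, h₂⟩).2.2.2 hi₂
  · intro t u e
    have e' : glue t = glue u := congrArg Subtype.val e
    funext C
    apply Subtype.ext
    funext i
    rw [← glue_mem h𝒞 t C.2 i.2, ← glue_mem h𝒞 u C.2 i.2, e']

theorem tup_free {i₁ i₂ : B} (τ₁ τ₂ : X → X) {C : Finset B} (h₁ : i₁ ∉ C) (h₂ : i₂ ∉ C) :
    Nat.card {t : C → X → X // Act (fun _ _ => True) t} = Nat.card (Tup i₁ i₂ τ₁ τ₂ C) :=
  Nat.card_congr (Equiv.subtypeEquivRight fun _ =>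
    ⟨fun h => ⟨h, fun h' => absurd h' h₁, fun h' => absurd h' h₂⟩, fun h => h.1⟩)

theorem tup_one {i₁ i₂ : B} (τ₁ τ₂ : X → X) {C : Finset B} (h₁ : i₁ ∈ C) (h₂ : i₂ ∉ C) :
    Nat.card {t : C → X → X // Act (fun _ _ => True) t ∧ t ⟨i₁, h₁⟩ = τ₁} =
      Nat.card (Tup i₁ i₂ τ₁ τ₂ C) :=
  Nat.card_congr (Equiv.subtypeEquivRight fun _ =>
    ⟨fun h => ⟨h.1, fun _ => h.2, fun h' => absurd h' h₂⟩, fun h => ⟨h.1, h.2.1 h₁⟩⟩)

theorem tup_two {i₁ i₂ : B} (τ₁ τ₂ : X → X) {C : Finset B} (h₁ : i₁ ∉ C) (h₂ : i₂ ∈ C) :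
    Nat.card {t : C → X → X // Act (fun _ _ => True) t ∧ t ⟨i₂, h₂⟩ = τ₂} =
      Nat.card (Tup i₁ i₂ τ₁ τ₂ C) :=
  Nat.card_congr (Equiv.subtypeEquivRight fun _ =>
    ⟨fun h => ⟨h.1, fun h' => absurd h' h₁, fun _ => h.2⟩, fun h => ⟨h.1, h.2.2 h₂⟩⟩)

end glue

end L

open L in
theorem row_L : S_T → S_L := by
  intro hT B W _ _ _ M cs hM 𝒞 h𝒞 C₁ h₁ C₂ h₂ hne hn₁ hn₂ n hn hf
  have : NeZero n := ⟨hn.ne'⟩
  obtain ⟨i₁, hi₁⟩ := hn₁
  obtain ⟨i₂, hi₂⟩ := hn₂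
  refine le_trans ?_ (act_le cs hM n i₁ i₂ hf)
  refine le_trans ?_ (prod_le (fun x : ZMod n => -x) (fun x => 1 - x) h𝒞 h₁ h₂ hi₁ hi₂)
  have h₂' : C₂ ∈ 𝒞.erase C₁ := Finset.mem_erase.2 ⟨hne.symm, h₂⟩
  rw [← Finset.mul_prod_erase 𝒞 _ h₁, ← Finset.mul_prod_erase _ _ h₂', ← mul_assoc]
  have hn₁ : ∀ C ∈ 𝒞, C ≠ C₁ → i₁ ∉ C := fun C hC e h => (h𝒞.2 C hC C₁ h₁ e i₁ h i₁ hi₁).1 rfl
  have hn₂ : ∀ C ∈ 𝒞, C ≠ C₂ → i₂ ∉ C := fun C hC e h => (h𝒞.2 C hC C₂ h₂ e i₂ h i₂ hi₂).1 rfl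
  refine Nat.mul_le_mul (Nat.mul_le_mul ?_ ?_) (Finset.prod_le_prod' ?_)
  · rw [← tup_one _ _ hi₁ (hn₂ C₁ h₁ hne)]
    have := (hT C₁ (ZMod n)).2 ⟨i₁, hi₁⟩ (fun x => -x) (fun x => neg_neg x)
      (two_sol n 0 _ fun x hx => by
        have hx' : -x = x := hx
        linear_combination -hx')
    rwa [Fintype.card_coe, ZMod.card] at this
  · rw [← tup_two _ _ (hn₁ C₂ h₂ hne.symm) hi₂]
    have := (hT C₂ (ZMod n)).2 ⟨i₂, hi₂⟩ (fun x => 1 - x) (fun x => sub_sub_cancel 1 x)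
      (two_sol n 1 _ fun x hx => by
        have hx' : 1 - x = x := hx
        linear_combination -hx')
    rwa [Fintype.card_coe, ZMod.card] at this
  · intro C hC
    obtain ⟨e₂, hC'⟩ := Finset.mem_erase.1 hC
    obtain ⟨e₁, hC''⟩ := Finset.mem_erase.1 hC'
    rw [← tup_free _ _ (hn₁ C hC'' e₁) (hn₂ C hC'' e₂)]
    have := (hT C (ZMod n)).1
    rwa [Fintype.card_coe, ZMod.card] at this

end Pool.Agent.MP_4cbd16_al.RC
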