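import Pool.Agent.MP_4cbd16_al.RC.Spec

/-! Row M: the theorem from the rows `S_H`, `S_U`, `S_L`, `S_A`. -/

namespace Pool.Agent.MP_4cbd16_al.RC

open Filter

namespace RowM

theorem cc_iff {B : Type} (M : CoxeterMatrix B)
    (hM : ∀ i j, i ≠ j → M i j = 2 ∨ M i j = 0) (𝒞 : Finset (Finset B)) :
    ((∀ C ∈ 𝒞, ∀ i ∈ C, ∀ j ∈ C, M i j ≠ 0) ∧
      (∀ C ∈ 𝒞, ∀ D ∈ 𝒞, C ≠ D → ∀ i ∈ C, ∀ j ∈ D, M i j = 0)) ↔
      CC (fun i j => M i j = 2) 𝒞 := by
  constructor
  · rintro ⟨h1, h2⟩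
    refine ⟨fun C hC i hi j hj hij => (hM i j hij).resolve_right (h1 C hC i hi j hj), ?_⟩
    intro C hC D hD hCD i hi j hj
    have h0 := h2 C hC D hD hCD i hi j hj
    refine ⟨?_, ?_⟩
    · rintro rfl
      rw [M.diagonal] at h0
      exact absurd h0 (by decide)
    · show ¬ M i j = 2
      rw [h0]; decide
  · rintro ⟨h1, h2⟩
    refine ⟨?_, ?_⟩
    · intro C hC i hi j hj
      by_cases hij : i = j
      · subst hij
        rw [M.diagonal]; decide
      · have : M i j = 2 := h1 C hC i hi j hj hij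
        rw [this]; decide
    · intro C hC D hD hCD i hi j hj
      obtain ⟨hij, hn⟩ := h2 C hC D hD hCD i hi j hj
      exact (hM i j hij).resolve_left hn

theorem two_members {B : Type} [DecidableEq B] (𝒞 : Finset (Finset B)) (h : 1 ≤ wtC 𝒞) :
    ∃ C₁ ∈ 𝒞, ∃ C₂ ∈ 𝒞, C₁ ≠ C₂ ∧ C₁.Nonempty ∧ C₂.Nonempty := by
  by_contra hne
  have hall : ∀ C₁ ∈ 𝒞, ∀ C₂ ∈ 𝒞, C₁.Nonempty → C₂.Nonempty → C₁ = C₂ := by
    intro C₁ h₁ C₂ h₂ n₁ n₂
    by_contra hd
    exact hne ⟨C₁, h₁, C₂, h₂, hd, n₁, n₂⟩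
  have hz : ∀ C : Finset B, ¬ C.Nonempty → (1 - (1 / 2 : ℝ) ^ C.card) = 0 := by
    intro C hC
    rw [Finset.not_nonempty_iff_eq_empty] at hC
    subst hC
    simp
  by_cases hex : ∃ C ∈ 𝒞, C.Nonempty
  · obtain ⟨C, hC, hn⟩ := hex
    have : wtC 𝒞 = 1 - (1 / 2 : ℝ) ^ C.card := by
      unfold wtC
      refine Finset.sum_eq_single_of_mem C hC ?_
      intro D hD hDC
      exact hz D (fun hDn => hDC (hall D hD C hC hDn hn))
    have hp : (0 : ℝ) < (1 / 2 : ℝ) ^ C.card := by positivity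
    linarith
  · have : wtC 𝒞 = 0 := by
      unfold wtC
      refine Finset.sum_eq_zero ?_
      intro D hD
      exact hz D (fun hDn => hex ⟨D, hD, hDn⟩)
    linarith

theorem pow_le_fact (C η : ℝ) (hC : 0 < C) (hη : 0 < η) :
    ∀ᶠ n : ℕ in atTop, C ^ n ≤ (n.factorial : ℝ) ^ η := by
  have h := FloorSemiring.tendsto_pow_div_factorial_atTop (C ^ η⁻¹)
  have h1 := h.eventually (gt_mem_nhds (show (0 : ℝ) < 1 by norm_num))
  filter_upwards [h1] with n hn
  have hf : (0 : ℝ) < (n.factorial : ℝ) := by exact_mod_cast n.factorial_pos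
  rw [div_lt_one hf] at hn
  have hD : (0 : ℝ) ≤ C ^ η⁻¹ := by positivity
  have h2 : ((C ^ η⁻¹) ^ n) ^ η ≤ (n.factorial : ℝ) ^ η :=
    Real.rpow_le_rpow (by positivity) hn.le hη.le
  have h3 : ((C ^ η⁻¹) ^ n) ^ η = C ^ n := by
    rw [← Real.rpow_natCast, ← Real.rpow_mul hD, mul_comm, Real.rpow_mul hD,
      Real.rpow_inv_rpow hC.le hη.ne', Real.rpow_natCast]
  rwa [h3] at h2

theorem one_term (K β a : ℝ) (hK : 1 ≤ K) (hβ : 1 ≤ β) (m n : ℕ) (hmn : m < n)
    (ha : a * (m.factorial : ℝ) ≤ K ^ (m + 1) * ((m + 1 : ℕ) : ℝ) ^ (β * ((m + 1 : ℕ) : ℝ))) :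
    a ≤ (n : ℝ) * (K * Real.exp β) ^ n * (n.factorial : ℝ) ^ (β - 1) := by
  set N := m + 1 with hN
  have hNn : N ≤ n := hmn
  have hN0 : (0 : ℝ) ≤ (N : ℝ) := Nat.cast_nonneg _
  have hf : (0 : ℝ) < (N.factorial : ℝ) := by exact_mod_cast N.factorial_pos
  have hfm : (0 : ℝ) < (m.factorial : ℝ) := by exact_mod_cast m.factorial_pos
  have h1 : (N : ℝ) ^ N ≤ Real.exp N * (N.factorial : ℝ) := by
    have := Real.pow_div_factorial_le_exp (N : ℝ) hN0 N
    rwa [div_le_iff₀ hf] at this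
  have h2 : (N : ℝ) ^ (β * (N : ℝ)) ≤ Real.exp β ^ N * (N.factorial : ℝ) ^ β := by
    have e1 : (N : ℝ) ^ (β * (N : ℝ)) = ((N : ℝ) ^ N) ^ β := by
      rw [mul_comm, Real.rpow_mul hN0, Real.rpow_natCast]
    have e2 : Real.exp β ^ N = Real.exp N ^ β := by
      rw [← Real.exp_nat_mul, ← Real.exp_mul]
    rw [e1, e2, ← Real.mul_rpow (Real.exp_pos _).le hf.le]
    exact Real.rpow_le_rpow (by positivity) h1 (by linarith)
  have h3 : (N.factorial : ℝ) ^ β = (N.factorial : ℝ) ^ (β - 1) * ((N : ℝ) * m.factorial) := by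
    have : (N.factorial : ℝ) = (N : ℝ) * m.factorial := by
      rw [hN, Nat.factorial_succ]; push_cast; ring
    rw [← this, Real.rpow_sub_one hf.ne']
    field_simp
  have h4 : a ≤ (N : ℝ) * (K * Real.exp β) ^ N * (N.factorial : ℝ) ^ (β - 1) := by
    have hKp : (0 : ℝ) ≤ K ^ N := by positivity
    have h5 := ha.trans (mul_le_mul_of_nonneg_left h2 hKp)
    rw [h3] at h5
    refine le_of_mul_le_mul_right ?_ hfm
    refine h5.trans (le_of_eq ?_)
    rw [mul_pow]; ring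
  refine h4.trans ?_
  have hE : 1 ≤ K * Real.exp β :=
    one_le_mul_of_one_le_of_one_le hK (Real.one_le_exp (by linarith))
  have g1 : (N : ℝ) ≤ n := by exact_mod_cast hNn
  have g2 : (K * Real.exp β) ^ N ≤ (K * Real.exp β) ^ n := pow_le_pow_right₀ hE hNn
  have g3 : (N.factorial : ℝ) ^ (β - 1) ≤ (n.factorial : ℝ) ^ (β - 1) :=
    Real.rpow_le_rpow hf.le (by exact_mod_cast Nat.factorial_le hNn) (by linarith)
  gcongr

theorem card_le_sum {W : Type} [Group W] (n : ℕ)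
    (hfin : ∀ m : ℕ, Finite {H : Subgroup W // H.index = m + 1}) :
    {H : Subgroup W | H.index ≠ 0 ∧ H.index ≤ n}.Finite ∧
    Nat.card {H : Subgroup W // H.index ≠ 0 ∧ H.index ≤ n} ≤
      ∑ m ∈ Finset.range n, Nat.card {H : Subgroup W // H.index = m + 1} := by
  have hset : ∀ m : ℕ, {H : Subgroup W | H.index = m + 1}.Finite := fun m =>
    Set.finite_coe_iff.mp (hfin m)
  induction n with
  | zero =>
    have he : {H : Subgroup W | H.index ≠ 0 ∧ H.index ≤ 0} = ∅ := by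
      ext H; simp
    refine ⟨by rw [he]; exact Set.finite_empty, ?_⟩
    change Nat.card ↥{H : Subgroup W | H.index ≠ 0 ∧ H.index ≤ 0} ≤ _
    rw [he]; simp
  | succ n ih =>
    have he : {H : Subgroup W | H.index ≠ 0 ∧ H.index ≤ n + 1} =
        {H : Subgroup W | H.index ≠ 0 ∧ H.index ≤ n} ∪ {H : Subgroup W | H.index = n + 1} := by
      ext H
      simp only [Set.mem_ofPred_eq, Set.mem_union]
      omega
    refine ⟨by rw [he]; exact ih.1.union (hset n), ?_⟩
    change Nat.card ↥{H : Subgroup W | H.index ≠ 0 ∧ H.index ≤ n + 1} ≤ _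
    rw [he, Finset.sum_range_succ, Nat.card_coe_set_eq]
    refine (Set.ncard_union_le _ _).trans (add_le_add ?_ ?_)
    · rw [← Nat.card_coe_set_eq]; exact ih.2
    · rw [← Nat.card_coe_set_eq]; exact le_rfl

end RowM

theorem main_of (hH : S_H) (hU : S_U) (hL : S_L) (hA : S_A) : S_Main := by
  intro B W _ _ _ M cs hM hij γ hγ ε hε
  have hsym : ∀ i j, M i j = 2 → M j i = 2 := fun i j h => by rw [M.symmetric]; exact h
  have hirr : ∀ i, ¬ M i i = 2 := fun i => by rw [M.diagonal]; decide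
  have hub : ∀ 𝒞 : Finset (Finset B), CC (fun i j => M i j = 2) 𝒞 → wtC 𝒞 ≤ γ := by
    intro 𝒞 h𝒞
    obtain ⟨h1, h2⟩ := (RowM.cc_iff M hM 𝒞).2 h𝒞
    exact hγ.2 ⟨𝒞, h1, h2, rfl⟩
  have hγ1 : 1 ≤ γ := by
    obtain ⟨i, j, h0⟩ := hij
    have hne : i ≠ j := by
      rintro rfl
      rw [M.diagonal] at h0
      exact absurd h0 (by decide)
    have hne' : ({i} : Finset B) ≠ {j} := by simpa using hne
    have h0' : M j i = 0 := by rw [M.symmetric]; exact h0
    have hc : CC (fun i j => M i j = 2) ({{i}, {j}} : Finset (Finset B)) := by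
      refine (RowM.cc_iff M hM _).1 ⟨?_, ?_⟩
      · intro C hC a ha b hb
        simp only [Finset.mem_insert, Finset.mem_singleton] at hC
        rcases hC with rfl | rfl
        · rw [Finset.mem_singleton] at ha hb
          rw [ha, hb, M.diagonal]; decide
        · rw [Finset.mem_singleton] at ha hb
          rw [ha, hb, M.diagonal]; decide
      · intro C hC D hD hCD a ha b hb
        simp only [Finset.mem_insert, Finset.mem_singleton] at hC hD
        rcases hC with rfl | rfl <;> rcases hD with rfl | rfl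
        · exact absurd rfl hCD
        · rw [Finset.mem_singleton] at ha hb
          rw [ha, hb]; exact h0
        · rw [Finset.mem_singleton] at ha hb
          rw [ha, hb]; exact h0'
        · exact absurd rfl hCD
    have := hub _ hc
    unfold wtC at this
    rw [Finset.sum_pair hne'] at this
    simp only [Finset.card_singleton] at this
    linarith
  obtain ⟨𝒞, h1, h2, hw⟩ := hγ.1
  have h𝒞 : CC (fun i j => M i j = 2) 𝒞 := (RowM.cc_iff M hM 𝒞).1 ⟨h1, h2⟩
  have hw' : γ = wtC 𝒞 := hw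
  obtain ⟨C₁, m₁, C₂, m₂, hd, n₁, n₂⟩ := RowM.two_members 𝒞 (hw' ▸ hγ1)
  have hfin : ∀ m : ℕ, Finite {H : Subgroup W // H.index = m + 1} :=
    fun m => (hU B W M cs m).1
  obtain ⟨K, hK, hKb⟩ := hH B (fun i j => M i j = 2) hsym hirr γ hub (ε / 2) (by linarith)
  have hE : 0 < 4 * (K * Real.exp (γ + ε / 2)) := by positivity
  filter_upwards [hA B 𝒞 C₁ m₁ C₂ m₂ hd n₁ n₂ ε hε,
    RowM.pow_le_fact _ (ε / 2) hE (by linarith), eventually_gt_atTop 0] with n ha hp hn
  refine ⟨?_, (RowM.card_le_sum n hfin).1, ?_⟩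
  · have hf : Finite {H : Subgroup W // H.index = n} := by
      obtain ⟨m, rfl⟩ := Nat.exists_eq_succ_of_ne_zero hn.ne'
      exact hfin m
    have := hL B W M cs hM 𝒞 h𝒞 C₁ m₁ C₂ m₂ hd n₁ n₂ n hn hf
    rw [hw']
    exact ha.trans (by exact_mod_cast this)
  · have hs : (Nat.card {H : Subgroup W // H.index ≠ 0 ∧ H.index ≤ n} : ℝ) ≤
        ∑ m ∈ Finset.range n, (Nat.card {H : Subgroup W // H.index = m + 1} : ℝ) := by
      exact_mod_cast (RowM.card_le_sum n hfin).2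
    have ht : ∀ m ∈ Finset.range n, (Nat.card {H : Subgroup W // H.index = m + 1} : ℝ) ≤
        (n : ℝ) * (K * Real.exp (γ + ε / 2)) ^ n * (n.factorial : ℝ) ^ (γ + ε / 2 - 1) := by
      intro m hm
      refine RowM.one_term K (γ + ε / 2) _ hK (by linarith) m n (Finset.mem_range.1 hm) ?_
      have u1 := (hU B W M cs m).2
      have u2 := hKb (Option (Fin m)) (by simp)
      have hc : Fintype.card (Option (Fin m)) = m + 1 := by simp
      rw [hc] at u2
      refine le_trans ?_ u2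
      exact_mod_cast u1
    have hsum := hs.trans (Finset.sum_le_card_nsmul _ _ _ ht)
    rw [Finset.card_range, nsmul_eq_mul] at hsum
    refine hsum.trans ?_
    have hf : (0 : ℝ) < (n.factorial : ℝ) := by exact_mod_cast n.factorial_pos
    have hn2 : (n : ℝ) ≤ 2 ^ n := by exact_mod_cast (Nat.lt_two_pow_self (n := n)).le
    have e1 : (n.factorial : ℝ) ^ (γ - 1 + ε) =
        (n.factorial : ℝ) ^ (ε / 2) * (n.factorial : ℝ) ^ (γ + ε / 2 - 1) := by
      rw [← Real.rpow_add hf]; congr 1; ring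
    rw [e1]
    have e2 : (n : ℝ) * ((n : ℝ) * (K * Real.exp (γ + ε / 2)) ^ n) ≤
        (4 * (K * Real.exp (γ + ε / 2))) ^ n := by
      rw [mul_pow (4 : ℝ), show (4 : ℝ) = 2 * 2 by norm_num, mul_pow (2 : ℝ) 2, mul_assoc]
      have hq : (0 : ℝ) ≤ (K * Real.exp (γ + ε / 2)) ^ n := by positivity
      gcongr
    rw [← mul_assoc]
    exact mul_le_mul_of_nonneg_right (e2.trans hp) (by positivity)

end Pool.Agent.MP_4cbd16_al.RC
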