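import Pool.Agent.MP_4cbd16_al.RC.Spec

/-! Paths in the Schreier graph of a family of involutions. -/

namespace Pool.Agent.MP_4cbd16_al.RC

open Classical

variable {B X : Type}

/-- endpoint of the word `w` read from `x` -/
def ev (s : B → X → X) : X → List B → X
  | x, [] => x
  | x, i :: w => ev s (s i x) w

/-- every letter moves the current point -/
def LF (s : B → X → X) : X → List B → Prop
  | _, [] => True
  | x, i :: w => s i x ≠ x ∧ LF s (s i x) w

/-- number of steps with letter `i` starting in `N` -/
noncomputable def cnt (s : B → X → X) (i : B) (N : Set X) : X → List B → ℕ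
  | _, [] => 0
  | x, j :: w => (if j = i ∧ x ∈ N then 1 else 0) + cnt s i N (s j x) w

@[simp] lemma ev_nil (s : B → X → X) (x : X) : ev s x [] = x := rfl
@[simp] lemma ev_cons (s : B → X → X) (x : X) (i : B) (w : List B) :
    ev s x (i :: w) = ev s (s i x) w := rfl
@[simp] lemma LF_nil (s : B → X → X) (x : X) : LF s x [] := trivial
@[simp] lemma LF_cons (s : B → X → X) (x : X) (i : B) (w : List B) :
    LF s x (i :: w) ↔ s i x ≠ x ∧ LF s (s i x) w := Iff.rfl
@[simp] lemma cnt_nil (s : B → X → X) (i : B) (N : Set X) (x : X) : cnt s i N x [] = 0 := rfl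
lemma cnt_cons (s : B → X → X) (i : B) (N : Set X) (x : X) (j : B) (w : List B) :
    cnt s i N x (j :: w) = (if j = i ∧ x ∈ N then 1 else 0) + cnt s i N (s j x) w := rfl

lemma ev_append (s : B → X → X) (x : X) (a b : List B) :
    ev s x (a ++ b) = ev s (ev s x a) b := by
  induction a generalizing x with
  | nil => rfl
  | cons i a ih => simp [ih]

lemma LF_append (s : B → X → X) (x : X) (a b : List B) :
    LF s x (a ++ b) ↔ LF s x a ∧ LF s (ev s x a) b := by
  induction a generalizing x with
  | nil => simp
  | cons i a ih => simp [ih, and_assoc]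

lemma cnt_append (s : B → X → X) (i : B) (N : Set X) (x : X) (a b : List B) :
    cnt s i N x (a ++ b) = cnt s i N x a + cnt s i N (ev s x a) b := by
  induction a generalizing x with
  | nil => simp
  | cons j a ih => simp [cnt_cons, ih, add_assoc]

lemma cnt_ne_zero {s : B → X → X} {i : B} {N : Set X} {x : X} {w : List B}
    (h : cnt s i N x w ≠ 0) : ∃ a b, w = a ++ i :: b ∧ ev s x a ∈ N := by
  induction w generalizing x with
  | nil => simp at h
  | cons j w ih =>
    by_cases hj : j = i ∧ x ∈ N
    · exact ⟨[], w, by simp [hj.1], by simpa using hj.2⟩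
    · rw [cnt_cons, if_neg hj, zero_add] at h
      obtain ⟨a, b, hw, ha⟩ := ih h
      exact ⟨j :: a, b, by simp [hw], by simpa using ha⟩

lemma ev_reverse {s : B → X → X} (hs : ∀ i x, s i (s i x) = x) (x : X) (w : List B) :
    ev s (ev s x w) w.reverse = x := by
  induction w generalizing x with
  | nil => rfl
  | cons i w ih => simp [ev_append, ih, hs]

lemma LF_reverse {s : B → X → X} (hs : ∀ i x, s i (s i x) = x) {x : X} {w : List B}
    (h : LF s x w) : LF s (ev s x w) w.reverse := by
  induction w generalizing x with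
  | nil => trivial
  | cons i w ih =>
    simp only [ev_cons, List.reverse_cons, LF_append, ev_reverse hs, LF_cons, hs, LF_nil, and_true]
    exact ⟨ih h.2, fun e => h.1 e.symm⟩

/-- `t` is a sub-action of `s` -/
def Sub (t s : B → X → X) : Prop := ∀ i x, t i x ≠ x → s i x = t i x

lemma Sub.path {t s : B → X → X} (h : Sub t s) {x : X} {w : List B} (hw : LF t x w) :
    LF s x w ∧ ev s x w = ev t x w := by
  induction w generalizing x with
  | nil => simp
  | cons i w ih =>
    have e := h i x hw.1
    simp only [LF_cons, ev_cons, e]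
    exact ⟨⟨hw.1, (ih hw.2).1⟩, (ih hw.2).2⟩

lemma Sub.trans {u t s : B → X → X} (h1 : Sub u t) (h2 : Sub t s) : Sub u s := by
  intro i x hx
  have e := h1 i x hx
  rw [h2 i x (by rw [e]; exact hx), e]

/-- reachability along letters in `J` -/
def Reach (s : B → X → X) (J : B → Prop) (x y : X) : Prop :=
  ∃ w : List B, (∀ i ∈ w, J i) ∧ LF s x w ∧ ev s x w = y

lemma Reach.refl (s : B → X → X) (J : B → Prop) (x : X) : Reach s J x x :=
  ⟨[], by simp, trivial, rfl⟩

lemma Reach.trans {s : B → X → X} {J : B → Prop} {x y z : X} (h1 : Reach s J x y)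
    (h2 : Reach s J y z) : Reach s J x z := by
  obtain ⟨a, ha, la, rfl⟩ := h1
  obtain ⟨b, hb, lb, rfl⟩ := h2
  refine ⟨a ++ b, ?_, (LF_append _ _ _ _).2 ⟨la, lb⟩, ev_append _ _ _ _⟩
  intro i hi
  rcases List.mem_append.1 hi with h | h
  · exact ha i h
  · exact hb i h

lemma Reach.symm {s : B → X → X} (hs : ∀ i x, s i (s i x) = x) {J : B → Prop} {x y : X}
    (h : Reach s J x y) : Reach s J y x := by
  obtain ⟨a, ha, la, rfl⟩ := h
  exact ⟨a.reverse, fun i hi => ha i (List.mem_reverse.1 hi), LF_reverse hs la, ev_reverse hs _ _⟩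

lemma Reach.step {s : B → X → X} {J : B → Prop} {x y : X} (h : Reach s J x y) {i : B}
    (hi : J i) : Reach s J x (s i y) := by
  by_cases e : s i y = y
  · rw [e]; exact h
  · exact h.trans ⟨[i], by simpa using hi, by simpa using e, rfl⟩

lemma Reach.sub {t s : B → X → X} (h : Sub t s) {J J' : B → Prop} (hJ : ∀ i, J i → J' i)
    {x y : X} (hr : Reach t J x y) : Reach s J' x y := by
  obtain ⟨a, ha, la, rfl⟩ := hr
  exact ⟨a, fun i hi => hJ i (ha i hi), (h.path la).1, (h.path la).2⟩

lemma Sub.refl (s : B → X → X) : Sub s s := fun _ _ _ => rfl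

/-- a point of a small orbit is reached by a short path -/
lemma Reach.short [Fintype X] {s : B → X → X} {J : B → Prop} {x y : X} (h : Reach s J x y) :
    ∃ w : List B, (∀ i ∈ w, J i) ∧ LF s x w ∧ ev s x w = y ∧
      w.length < (Finset.univ.filter fun z => Reach s J x z).card := by
  have hex : ∃ n, ∃ w : List B, w.length = n ∧ (∀ i ∈ w, J i) ∧ LF s x w ∧ ev s x w = y := by
    obtain ⟨w, h1, h2, h3⟩ := h
    exact ⟨_, w, rfl, h1, h2, h3⟩
  obtain ⟨w, hl, h1, h2, h3⟩ := Nat.find_spec hex
  refine ⟨w, h1, h2, h3, ?_⟩
  have key : ∀ j j', j < j' → j' ≤ w.length → ev s x (w.take j) ≠ ev s x (w.take j') := by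
    intro j j' hjj hj' e
    have hA : LF s x (w.take j) ∧ LF s (ev s x (w.take j)) (w.drop j) := by
      rw [← LF_append, List.take_append_drop]; exact h2
    have hB : LF s x (w.take j') ∧ LF s (ev s x (w.take j')) (w.drop j') := by
      rw [← LF_append, List.take_append_drop]; exact h2
    have hlt : (w.take j ++ w.drop j').length < Nat.find hex := by
      rw [← hl]; simp only [List.length_append, List.length_take, List.length_drop]; omega
    refine Nat.find_min hex hlt ⟨w.take j ++ w.drop j', rfl, ?_, ?_, ?_⟩
    · intro i hi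
      rcases List.mem_append.1 hi with h | h
      · exact h1 i (List.mem_of_mem_take h)
      · exact h1 i (List.mem_of_mem_drop h)
    · rw [LF_append, e]; exact ⟨hA.1, hB.2⟩
    · rw [ev_append, e, ← ev_append, List.take_append_drop]; exact h3
  have hcard : (Finset.range (w.length + 1)).card ≤
      (Finset.univ.filter fun z => Reach s J x z).card := by
    refine Finset.card_le_card_of_injOn (fun j => ev s x (w.take j)) ?_ ?_
    · intro j _
      simp only [Finset.coe_filter, Finset.mem_univ, true_and, Set.mem_setOf_eq]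
      refine ⟨w.take j, fun i hi => h1 i (List.mem_of_mem_take hi), ?_, rfl⟩
      have hA : LF s x (w.take j) ∧ LF s (ev s x (w.take j)) (w.drop j) := by
        rw [← LF_append, List.take_append_drop]; exact h2
      exact hA.1
    · intro j hj j' hj' e
      simp only [Finset.coe_range, Set.mem_Iio] at hj hj'
      rcases lt_trichotomy j j' with h | h | h
      · exact absurd e (key j j' h (by omega))
      · exact h
      · exact absurd e.symm (key j' j h (by omega))
  simpa using hcard

/-- a word of letters commuting with `v` commutes with `s v` -/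
lemma comm_path {adj : B → B → Prop} {s : B → X → X} (hs : Act adj s) {v : B} {p : List B}
    (hp : ∀ j ∈ p, adj v j) (y : X) :
    ev s (s v y) p = s v (ev s y p) ∧ (LF s y p → LF s (s v y) p) := by
  induction p generalizing y with
  | nil => simp
  | cons j p ih =>
    have hj := hp j (by simp)
    have e : s j (s v y) = s v (s j y) := (hs.comm v j hj y).symm
    have ih' := ih (fun k hk => hp k (by simp [hk])) (s j y)
    refine ⟨by simp only [ev_cons, e, ih'.1], fun h => ⟨?_, by rw [e]; exact ih'.2 h.2⟩⟩
    rw [e]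
    intro e2
    apply h.1
    have := congrArg (s v) e2
    simpa [hs.inv] using this

lemma moved_path {adj : B → B → Prop} {s : B → X → X} (hs : Act adj s) {v : B} {p : List B}
    (hp : ∀ j ∈ p, j = v ∨ adj v j) {y : X} (hy : s v y ≠ y) : s v (ev s y p) ≠ ev s y p := by
  induction p generalizing y with
  | nil => simpa using hy
  | cons j p ih =>
    refine ih (fun k hk => hp k (by simp [hk])) ?_
    rcases hp j (by simp) with rfl | hj
    · rw [hs.inv]; exact fun e => hy e.symm
    · rw [hs.comm v j hj]
      intro e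
      apply hy
      have := congrArg (s j) e
      simpa [hs.inv] using this

/-- the piece of the edge `(v, x)` -/
def Pc (adj : B → B → Prop) (s : B → X → X) (v : B) (x : X) : Set X :=
  {y | Reach s (fun j => j = v ∨ adj v j) x y}

/-- deleting the `v`-edges on `N` -/
noncomputable def del (s : B → X → X) (v : B) (N : Set X) : B → X → X :=
  fun i y => if i = v ∧ y ∈ N then y else s i y

lemma del_sub (s : B → X → X) (v : B) (N : Set X) : Sub (del s v N) s := by
  intro i x h
  unfold del at h ⊢
  split_ifs at h ⊢ with hc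
  · exact absurd rfl h
  · rfl

lemma del_ne (s : B → X → X) {v i : B} (N : Set X) (h : i ≠ v) (y : X) :
    del s v N i y = s i y := by
  unfold del; rw [if_neg (fun hc => h hc.1)]

lemma del_notMem (s : B → X → X) (v i : B) {N : Set X} {y : X} (h : y ∉ N) :
    del s v N i y = s i y := by
  unfold del; rw [if_neg (fun hc => h hc.2)]

lemma del_mem (s : B → X → X) (v : B) {N : Set X} {y : X} (h : y ∈ N) :
    del s v N v y = y := by
  unfold del; rw [if_pos ⟨rfl, h⟩]

lemma Pc_self (adj : B → B → Prop) (s : B → X → X) (v : B) (x : X) : x ∈ Pc adj s v x :=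
  Reach.refl _ _ _

lemma Pc_step {adj : B → B → Prop} {s : B → X → X} (hs : Act adj s) {v j : B} (x : X)
    (hj : j = v ∨ adj v j) (y : X) : s j y ∈ Pc adj s v x ↔ y ∈ Pc adj s v x := by
  constructor
  · intro h
    have := Reach.step (s := s) h hj
    rwa [hs.inv] at this
  · intro h
    exact Reach.step (s := s) h hj

lemma Pc_eq {adj : B → B → Prop} {s : B → X → X} (hs : Act adj s) {v : B} {x y : X}
    (h : y ∈ Pc adj s v x) : Pc adj s v y = Pc adj s v x := by
  ext z
  exact ⟨fun hz => Reach.trans h hz, fun hz => Reach.trans (Reach.symm hs.inv h) hz⟩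

lemma Pc_moved {adj : B → B → Prop} {s : B → X → X} (hs : Act adj s) {v : B} {x y : X}
    (hx : s v x ≠ x) (h : y ∈ Pc adj s v x) : s v y ≠ y := by
  obtain ⟨w, h1, _, rfl⟩ := h
  exact moved_path hs h1 hx

lemma Pc_split {adj : B → B → Prop} {s : B → X → X} (hs : Act adj s) {v : B} {x y : X}
    (h : y ∈ Pc adj s v x) : Reach s (adj v) x y ∨ Reach s (adj v) (s v x) y := by
  obtain ⟨w, h1, h2, rfl⟩ := h
  induction w using List.reverseRecOn with
  | nil => exact Or.inl (Reach.refl _ _ _)
  | append_singleton w j ih =>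
    have ih' := ih (fun i hi => h1 i (by simp [hi])) ((LF_append _ _ _ _).1 h2).1
    rw [ev_append]
    simp only [ev_cons, ev_nil]
    rcases h1 j (by simp) with rfl | hj
    · rcases ih' with ⟨p, hp, lp, e⟩ | ⟨p, hp, lp, e⟩
      · right
        exact ⟨p, hp, (comm_path hs hp x).2 lp, by rw [(comm_path hs hp x).1, e]⟩
      · left
        have := comm_path hs hp (s j x)
        rw [hs.inv] at this
        exact ⟨p, hp, this.2 lp, by rw [this.1, e]⟩
    · rcases ih' with h | h
      · exact Or.inl (h.step hj)
      · exact Or.inr (h.step hj)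

lemma del_act {adj : B → B → Prop} (hsy : ∀ i j, adj i j → adj j i) (hir : ∀ i, ¬ adj i i)
    {s : B → X → X} (hs : Act adj s) (v : B) (x : X) : Act adj (del s v (Pc adj s v x)) := by
  have one : ∀ j, adj v j → ∀ y, del s v (Pc adj s v x) v (del s v (Pc adj s v x) j y) =
      del s v (Pc adj s v x) j (del s v (Pc adj s v x) v y) := by
    intro j hj y
    have hne : j ≠ v := fun e => hir v (e ▸ hj)
    rw [del_ne s _ hne, del_ne s _ hne]
    by_cases hy : y ∈ Pc adj s v x
    · rw [del_mem s v hy, del_mem s v ((Pc_step hs x (Or.inr hj) y).2 hy)]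
    · rw [del_notMem s v v hy, del_notMem s v v (fun h => hy ((Pc_step hs x (Or.inr hj) y).1 h)),
        hs.comm v j hj]
  constructor
  · intro i y
    by_cases hi : i = v
    · subst hi
      by_cases hy : y ∈ Pc adj s i x
      · rw [del_mem s i hy, del_mem s i hy]
      · rw [del_notMem s i i hy,
          del_notMem s i i (fun h => hy ((Pc_step hs x (Or.inl rfl) y).1 h)), hs.inv]
    · rw [del_ne s _ hi, del_ne s _ hi, hs.inv]
  · intro i j hij y
    by_cases hi : i = v
    · subst hi; exact one j hij y
    · by_cases hj : j = v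
      · subst hj; exact (one i (hsy _ _ hij) y).symm
      · simp only [del_ne s _ hi, del_ne s _ hj, hs.comm i j hij]

lemma del_path {s : B → X → X} {v : B} {N : Set X} {x : X} {w : List B} (hw : LF s x w)
    (hc : cnt s v N x w = 0) : LF (del s v N) x w ∧ ev (del s v N) x w = ev s x w := by
  induction w generalizing x with
  | nil => simp
  | cons j w ih =>
    rw [cnt_cons] at hc
    have h1 : ¬ (j = v ∧ x ∈ N) := by
      intro h; rw [if_pos h] at hc; omega
    have e : del s v N j x = s j x := by unfold del; rw [if_neg h1]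
    have := ih hw.2 (by omega)
    simp only [LF_cons, ev_cons, e]
    exact ⟨⟨hw.1, this.1⟩, this.2⟩

lemma cnt_of_del {s : B → X → X} {v : B} {N : Set X} {x : X} {w : List B}
    (hw : LF (del s v N) x w) : cnt s v N x w = 0 := by
  induction w generalizing x with
  | nil => simp
  | cons j w ih =>
    have h1 : ¬ (j = v ∧ x ∈ N) := by
      rintro ⟨rfl, h⟩
      exact hw.1 (del_mem s j h)
    have e : del s v N j x = s j x := by unfold del; rw [if_neg h1]
    rw [cnt_cons, if_neg h1, zero_add]
    exact ih (e ▸ hw.2)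

lemma cnt_of_ne {s : B → X → X} {v : B} {N : Set X} {x : X} {w : List B}
    (hw : ∀ j ∈ w, j ≠ v) : cnt s v N x w = 0 := by
  by_contra h
  obtain ⟨a, b, rfl, _⟩ := cnt_ne_zero h
  exact hw v (by simp) rfl

end Pool.Agent.MP_4cbd16_al.RC
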