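import Pool.Agent.MP_4cbd16_al.RC.Spec

/-! Row T: many tuples of commuting involutions. -/

namespace Pool.Agent.MP_4cbd16_al.RC

namespace T

variable {I X Y F : Type}

/-- the model involution -/
def sw : (Y × Bool) ⊕ F → (Y × Bool) ⊕ F := Sum.map (Prod.map id not) id

/-- the lift of a map on `Y` -/
def lf (u : Y → Y) : (Y × Bool) ⊕ F → (Y × Bool) ⊕ F := Sum.map (Prod.map u id) id

theorem sw_sw (z : (Y × Bool) ⊕ F) : sw (sw z) = z := by
  rcases z with ⟨y, b⟩ | z <;> simp [sw]

theorem sw_lf (u : Y → Y) (z : (Y × Bool) ⊕ F) : sw (lf u z) = lf u (sw z) := by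
  rcases z with ⟨y, b⟩ | z <;> simp [sw, lf]

theorem lf_lf (u v : Y → Y) (z : (Y × Bool) ⊕ F) : lf u (lf v z) = lf (fun y => u (v y)) z := by
  rcases z with ⟨y, b⟩ | z <;> simp [lf]

theorem lf_id (z : (Y × Bool) ⊕ F) : lf (fun y => y) z = z := by
  rcases z with ⟨y, b⟩ | z <;> simp [lf]

/-- extension of a tuple on `Y` to a tuple on `X` -/
def ext [DecidableEq I] (e : (Y × Bool) ⊕ F ≃ X) (i₀ : I) (u : {i // i ≠ i₀} → Y → Y) :
    I → X → X := fun i x =>
  if h : i = i₀ then e (sw (e.symm x)) else e (lf (u ⟨i, h⟩) (e.symm x))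

theorem ext_zero [DecidableEq I] (e : (Y × Bool) ⊕ F ≃ X) (i₀ : I) (u : {i // i ≠ i₀} → Y → Y)
    (x : X) : ext e i₀ u i₀ x = e (sw (e.symm x)) := by
  simp [ext]

theorem ext_ne [DecidableEq I] (e : (Y × Bool) ⊕ F ≃ X) (i₀ : I) (u : {i // i ≠ i₀} → Y → Y)
    (i : I) (h : i ≠ i₀) (x : X) : ext e i₀ u i x = e (lf (u ⟨i, h⟩) (e.symm x)) := by
  simp [ext, h]

theorem ext_act [DecidableEq I] (e : (Y × Bool) ⊕ F ≃ X) (i₀ : I) (u : {i // i ≠ i₀} → Y → Y)
    (hu : Act (fun _ _ => True) u) : Act (fun _ _ => True) (ext e i₀ u) := by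
  constructor
  · intro i x
    by_cases h : i = i₀
    · subst h
      rw [ext_zero, ext_zero, e.symm_apply_apply, sw_sw, e.apply_symm_apply]
    · rw [ext_ne e i₀ u i h, ext_ne e i₀ u i h, e.symm_apply_apply, lf_lf]
      have : (fun y => u ⟨i, h⟩ (u ⟨i, h⟩ y)) = fun y => y := funext fun y => hu.inv _ y
      rw [this, lf_id, e.apply_symm_apply]
  · intro i j _ x
    by_cases h : i = i₀ <;> by_cases h' : j = i₀
    · subst h; subst h'; rfl
    · subst h
      rw [ext_zero, ext_ne e i u j h', ext_ne e i u j h', ext_zero, e.symm_apply_apply,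
        e.symm_apply_apply, sw_lf]
    · subst h'
      rw [ext_zero, ext_ne e j u i h, ext_ne e j u i h, ext_zero, e.symm_apply_apply,
        e.symm_apply_apply, sw_lf]
    · rw [ext_ne e i₀ u i h, ext_ne e i₀ u j h', ext_ne e i₀ u j h', ext_ne e i₀ u i h,
        e.symm_apply_apply, e.symm_apply_apply, lf_lf, lf_lf]
      have : (fun y => u ⟨i, h⟩ (u ⟨j, h'⟩ y)) = fun y => u ⟨j, h'⟩ (u ⟨i, h⟩ y) :=
        funext fun y => hu.comm _ _ trivial y
      rw [this]

/-- twisting the second sheet by a permutation -/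
def tw (σ : Equiv.Perm Y) : (Y × Bool) ⊕ F ≃ (Y × Bool) ⊕ F where
  toFun := Sum.map (fun p => (if p.2 then σ p.1 else p.1, p.2)) id
  invFun := Sum.map (fun p => (if p.2 then σ.symm p.1 else p.1, p.2)) id
  left_inv := by
    rintro (⟨y, b⟩ | z)
    · cases b <;> simp
    · simp
  right_inv := by
    rintro (⟨y, b⟩ | z)
    · cases b <;> simp
    · simp

theorem tw_false (σ : Equiv.Perm Y) (y : Y) :
    (tw σ : (Y × Bool) ⊕ F ≃ _) (Sum.inl (y, false)) = Sum.inl (y, false) := by
  simp [tw]

theorem tw_true (σ : Equiv.Perm Y) (y : Y) :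
    (tw σ : (Y × Bool) ⊕ F ≃ _) (Sum.inl (y, true)) = Sum.inl (σ y, true) := by
  simp [tw]

theorem card_ne [Fintype I] [DecidableEq I] (i₀ : I) :
    Fintype.card {i // i ≠ i₀} = Fintype.card I - 1 := by
  rw [Fintype.card_subtype_compl, Fintype.card_subtype_eq]

theorem part1 (n : ℕ) : ∀ (I X : Type) [Fintype I] [Fintype X], Fintype.card I = n →
    ∏ j ∈ Finset.range n, (Fintype.card X / 2 ^ (j + 1)).factorial ≤
      Nat.card {t : I → X → X // Act (fun _ _ => True) t} := by
  induction n with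
  | zero =>
    intro I X _ _ _
    have : Nonempty {t : I → X → X // Act (fun _ _ => True) t} :=
      ⟨⟨fun _ x => x, ⟨fun _ _ => rfl, fun _ _ _ _ => rfl⟩⟩⟩
    simpa using Nat.succ_le_of_lt Nat.card_pos
  | succ n ih =>
    intro I X _ _ hI
    classical
    obtain ⟨i₀⟩ : Nonempty I := Fintype.card_pos_iff.mp (by omega)
    set m := Fintype.card X / 2 with hm
    have hc : Fintype.card ((Fin m × Bool) ⊕ Fin (Fintype.card X % 2)) = Fintype.card X := by
      simp only [Fintype.card_sum, Fintype.card_prod, Fintype.card_fin, Fintype.card_bool]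
      omega
    let e := Fintype.equivOfCardEq hc
    have h1 := ih {i // i ≠ i₀} (Fin m) (by rw [card_ne]; omega)
    let Φ : Equiv.Perm (Fin m) × {u : {i // i ≠ i₀} → Fin m → Fin m // Act (fun _ _ => True) u} →
        {t : I → X → X // Act (fun _ _ => True) t} := fun p =>
      ⟨ext ((tw p.1).trans e) i₀ p.2.1, ext_act _ _ _ p.2.2⟩
    have hs : ∀ (σ : Equiv.Perm (Fin m)) (y : Fin m),
        ((tw σ).trans e).symm (e (Sum.inl (y, false))) = Sum.inl (y, false) := by
      intro σ y
      rw [Equiv.symm_apply_eq, Equiv.trans_apply, tw_false]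
    have hΦ : Function.Injective Φ := by
      rintro ⟨σ, u, hu⟩ ⟨σ', u', hu'⟩ h
      have h0 : ext ((tw σ).trans e) i₀ u = ext ((tw σ').trans e) i₀ u' := congrArg Subtype.val h
      refine Prod.ext ?_ (Subtype.ext ?_)
      · refine Equiv.ext fun y => ?_
        have h2 := congrFun (congrFun h0 i₀) (e (Sum.inl (y, false)))
        rw [ext_zero, ext_zero, hs, hs] at h2
        simpa [sw, tw_true] using h2
      · funext i y
        have h2 := congrFun (congrFun h0 i.1) (e (Sum.inl (y, false)))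
        rw [ext_ne _ _ _ _ i.2, ext_ne _ _ _ _ i.2, hs, hs] at h2
        simpa [lf, tw_false] using h2
    have h2 := Nat.card_le_card_of_injective Φ hΦ
    rw [Nat.card_prod, Nat.card_perm, Nat.card_eq_fintype_card, Fintype.card_fin] at h2
    refine le_trans ?_ h2
    rw [Finset.prod_range_succ', mul_comm]
    refine Nat.mul_le_mul (by simp [hm]) (le_trans (le_of_eq ?_) h1)
    refine Finset.prod_congr rfl fun j _ => ?_
    rw [Fintype.card_fin, hm, Nat.div_div_eq_div_mul]
    congr 2
    ring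

theorem model [Fintype X] (τ : X → X) (hτ : ∀ x, τ (τ x) = x) :
    ∃ (p : X → Prop) (e : ({x // p x} × Bool) ⊕ {x // τ x = x} ≃ X),
      ∀ x, e (sw (e.symm x)) = τ x := by
  let f := Fintype.equivFin X
  let g : ({x // f x < f (τ x)} × Bool) ⊕ {x // τ x = x} → X :=
    Sum.elim (fun p => if p.2 then τ p.1.1 else p.1.1) Subtype.val
  have hg : ∀ z, g (sw z) = τ (g z) := by
    rintro (⟨y, b⟩ | z)
    · cases b <;> simp [g, sw, hτ]
    · simp [g, sw, z.2]
  have hinj : Function.Injective τ := fun a b h => by rw [← hτ a, h, hτ]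
  have hb : Function.Bijective g := by
    constructor
    · rintro (⟨⟨y, hy⟩, b⟩ | ⟨z, hz⟩) (⟨⟨y', hy'⟩, b'⟩ | ⟨z', hz'⟩) h
      · cases b <;> cases b'
        · have h1 : y = y' := h
          subst h1; rfl
        · have h1 : y = τ y' := h
          subst h1
          rw [hτ] at hy
          exact absurd hy (not_lt.mpr hy'.le)
        · have h1 : τ y = y' := h
          subst h1
          rw [hτ] at hy'
          exact absurd hy (not_lt.mpr hy'.le)
        · have h1 : τ y = τ y' := h
          have h2 := hinj h1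
          subst h2; rfl
      · exfalso
        cases b
        · have h1 : y = z' := h
          subst h1
          rw [hz'] at hy
          exact lt_irrefl _ hy
        · have h1 : τ y = z' := h
          subst h1
          rw [hτ] at hz'
          rw [← hz'] at hy
          exact lt_irrefl _ hy
      · exfalso
        cases b'
        · have h1 : z = y' := h
          subst h1
          rw [hz] at hy'
          exact lt_irrefl _ hy'
        · have h1 : z = τ y' := h
          subst h1
          rw [hτ] at hz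
          rw [← hz] at hy'
          exact lt_irrefl _ hy'
      · have h1 : z = z' := h
        subst h1; rfl
    · intro x
      rcases lt_trichotomy (f x) (f (τ x)) with h | h | h
      · exact ⟨Sum.inl (⟨x, h⟩, false), rfl⟩
      · exact ⟨Sum.inr ⟨x, (f.injective h).symm⟩, rfl⟩
      · exact ⟨Sum.inl (⟨τ x, by rw [hτ]; exact h⟩, true), hτ x⟩
  refine ⟨fun x => f x < f (τ x), Equiv.ofBijective g hb, fun x => ?_⟩
  rw [Equiv.ofBijective_apply, hg]
  exact congrArg τ ((Equiv.ofBijective g hb).apply_symm_apply x)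

end T

theorem row_T : S_T := by
  intro I X _ _ _ _
  refine ⟨T.part1 _ I X rfl, fun i₀ τ hτ hf => ?_⟩
  classical
  obtain ⟨p, e, he⟩ := T.model τ hτ
  have hc := Fintype.card_congr e
  rw [Fintype.card_sum, Fintype.card_prod, Fintype.card_bool,
    Fintype.card_subtype (fun x => τ x = x)] at hc
  have h1 := T.part1 _ {i // i ≠ i₀} {x // p x} (T.card_ne i₀)
  let Φ : {u : {i // i ≠ i₀} → {x // p x} → {x // p x} // Act (fun _ _ => True) u} →
      {t : I → X → X // Act (fun _ _ => True) t ∧ t i₀ = τ} := fun u =>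
    ⟨T.ext e i₀ u.1, T.ext_act _ _ _ u.2, funext fun x => by rw [T.ext_zero, he]⟩
  have hΦ : Function.Injective Φ := by
    rintro ⟨u, hu⟩ ⟨u', hu'⟩ h
    have h0 : T.ext e i₀ u = T.ext e i₀ u' := congrArg Subtype.val h
    refine Subtype.ext ?_
    funext i y
    have h2 := congrFun (congrFun h0 i.1) (e (Sum.inl (y, false)))
    rw [T.ext_ne _ _ _ _ i.2, T.ext_ne _ _ _ _ i.2, e.symm_apply_apply] at h2
    simpa [T.lf] using h2
  refine le_trans ?_ (h1.trans (Nat.card_le_card_of_injective Φ hΦ))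
  refine Finset.prod_le_prod' fun j _ => Nat.factorial_le ?_
  have h3 : (Fintype.card X - 2) / 2 ^ (j + 2) = (Fintype.card X - 2) / 2 / 2 ^ (j + 1) := by
    rw [Nat.div_div_eq_div_mul]
    congr 1
    ring
  rw [h3]
  exact Nat.div_le_div_right (by omega)

end Pool.Agent.MP_4cbd16_al.RC
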