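import Pool.Agent.MP_4cbd16_al.RC.Spec

/-! Row U: subgroups of index `m + 1` inject, with labelings, into actions on `m + 1` points. -/

namespace Pool.Agent.MP_4cbd16_al.RC

namespace U

variable {W : Type} [Group W]

lemma exists_lab (m : ℕ) (H : Subgroup W) (hH : H.index = m + 1) :
    ∃ e : W ⧸ H ≃ Option (Fin m), e ((1 : W) : W ⧸ H) = none := by
  classical
  have h1 : Nat.card (W ⧸ H) = Nat.card (Option (Fin m)) := by
    rw [← Subgroup.index_eq_card, hH]; simp
  have : Finite (W ⧸ H) := Nat.finite_of_card_ne_zero (by rw [h1]; simp)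
  obtain ⟨e⟩ := Finite.card_eq.1 h1
  exact ⟨e.trans (Equiv.swap (e ((1 : W) : W ⧸ H)) none), by simp⟩

/-- the action transported along a labeling -/
noncomputable def hom {X : Type} (H : Subgroup W) (f : W ⧸ H ≃ X) : W →* Equiv.Perm X :=
  (f.permCongrHom).toMonoidHom.comp (MulAction.toPermHom W (W ⧸ H))

lemma hom_apply {X : Type} (H : Subgroup W) (f : W ⧸ H ≃ X) (g : W) :
    hom H f g (f ((1 : W) : W ⧸ H)) = f (g : W ⧸ H) := by
  simp [hom, Equiv.permCongrHom]

lemma mem_iff {X : Type} (H : Subgroup W) (f : W ⧸ H ≃ X) (g : W) :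
    hom H f g (f ((1 : W) : W ⧸ H)) = f ((1 : W) : W ⧸ H) ↔ g ∈ H := by
  rw [hom_apply, f.apply_eq_iff_eq, eq_comm, QuotientGroup.eq]
  simp

end U

theorem row_U : S_U := by
  intro B W _ _ _ M cs m
  classical
  choose e he using fun H : {H : Subgroup W // H.index = m + 1} => U.exists_lab m H.1 H.2
  let f : ∀ H : {H : Subgroup W // H.index = m + 1}, Equiv.Perm (Fin m) →
      (W ⧸ H.1 ≃ Option (Fin m)) := fun H p => (e H).trans (Equiv.optionCongr p)
  have hf : ∀ H p, f H p ((1 : W) : W ⧸ H.1) = none := by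
    intro H p; simp [f, he]
  let F : {H : Subgroup W // H.index = m + 1} × Equiv.Perm (Fin m) →
      {s : B → Option (Fin m) → Option (Fin m) // Act (fun i j => M i j = 2) s} := fun z =>
    ⟨fun i x => U.hom z.1.1 (f z.1 z.2) (cs.simple i) x, by
      constructor
      · intro i x
        rw [← Equiv.Perm.mul_apply, ← map_mul, cs.simple_mul_simple_self, map_one]
        rfl
      · intro i j hij x
        have h1 := cs.simple_mul_simple_pow i j
        rw [hij, pow_two] at h1
        have h2 : cs.simple i * cs.simple j = cs.simple j * cs.simple i := by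
          have h3 : cs.simple i * cs.simple j = (cs.simple i * cs.simple j)⁻¹ :=
            eq_inv_of_mul_eq_one_left h1
          rw [h3, mul_inv_rev, cs.inv_simple, cs.inv_simple]
        rw [← Equiv.Perm.mul_apply, ← map_mul, h2, map_mul, Equiv.Perm.mul_apply]⟩
  have hF : Function.Injective F := by
    rintro ⟨H, p⟩ ⟨K, q⟩ h
    have h1 : U.hom H.1 (f H p) = U.hom K.1 (f K q) := by
      refine cs.ext_simple fun i => Equiv.ext fun x => ?_
      exact congrFun (congrFun (congrArg Subtype.val h) i) x
    have h2 : H = K := by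
      refine Subtype.ext (Subgroup.ext fun g => ?_)
      rw [← U.mem_iff H.1 (f H p), ← U.mem_iff K.1 (f K q), hf, hf, h1]
    subst h2
    have h3 : f H p = f H q := by
      refine Equiv.ext fun y => ?_
      obtain ⟨g, rfl⟩ := QuotientGroup.mk_surjective y
      rw [← U.hom_apply, ← U.hom_apply H.1 (f H q), hf, hf, h1]
    have h4 : p = q := by
      refine Equiv.ext fun x => ?_
      have h5 := congrArg (fun t : W ⧸ H.1 ≃ Option (Fin m) => t ((e H).symm (some x))) h3
      simpa [f] using h5
    rw [h4]
  have hfin : Finite ({H : Subgroup W // H.index = m + 1} × Equiv.Perm (Fin m)) :=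
    Finite.of_injective F hF
  refine ⟨Finite.of_injective (fun H => ((H, 1) : _ × Equiv.Perm (Fin m)))
    (fun a b h => (Prod.ext_iff.1 h).1), ?_⟩
  have h := Nat.card_le_card_of_injective F hF
  rwa [Nat.card_prod, Nat.card_perm, Nat.card_eq_fintype_card (α := Fin m),
    Fintype.card_fin] at h

end Pool.Agent.MP_4cbd16_al.RC
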